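import Pool.Agent.Gabow87.R.Step
import Pool.Agent.Gabow87.Appl
import Pool.Agent.Gabow87.Order
import Pool.Agent.Gabow87.Main6

/-!
# Long serial symmetric exchanges
-/

set_option autoImplicit false

namespace Pool.Agent.Gabow87

section
variable {α : Type*} [DecidableEq α]

/-- the matroids of a pair system -/
noncomputable def PairSys.toM {k : ℕ} {B Y : Finset α} {P : Bool → Finset α → Prop}
    (h : PairSys k B Y P) (s : Bool) : Matroid α :=
  Matroid.ofIsBaseOfFinite (E := ((B ∪ Y : Finset α) : Set α)) (Finset.finite_toSet _)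
    (fun S => ∃ T : Finset α, (T : Set α) = S ∧ P s T) ⟨Y, Y, rfl, h.base s⟩
    (by
      rintro _ _ ⟨S, rfl, hS⟩ ⟨T, rfl, hT⟩ a ha
      obtain ⟨y, hy, hyS, h1⟩ := h.exch s S T hS hT a ha.1 (fun h' => ha.2 h')
      refine ⟨y, ⟨hy, hyS⟩, insert y (S.erase a), ?_, h1⟩
      rw [Finset.coe_insert, Finset.coe_erase])
    (by
      rintro _ ⟨S, rfl, hS⟩
      exact Finset.coe_subset.mpr (h.sub s S hS))

theorem PairSys.toM_isBase {k : ℕ} {B Y : Finset α} {P : Bool → Finset α → Prop}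
    (h : PairSys k B Y P) (s : Bool) (T : Finset α) :
    (h.toM s).IsBase (T : Set α) ↔ P s T := by
  constructor
  · rintro ⟨T', hT', hP⟩
    rw [Finset.coe_inj] at hT'
    exact hT' ▸ hP
  · intro hP
    exact ⟨T, rfl, hP⟩

theorem PairSys.msys {k : ℕ} {B Y : Finset α} {P : Bool → Finset α → Prop}
    (h : PairSys k B Y P) : MSys h.toM B Y where
  ground s := rfl
  disj := h.disj
  base s := (h.toM_isBase s Y).mpr (h.base s)
  orth s S T hS hT z hz hzS hzT := by
    rw [h.toM_isBase] at hS hT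
    cases s
    · obtain ⟨e, he, h1, h2, h3, h4⟩ := h.orth S T hS hT z hz hzS hzT
      exact ⟨e, he, h1, h2, (h.toM_isBase _ _).mpr h3, (h.toM_isBase _ _).mpr h4⟩
    · obtain ⟨e, he, h1, h2, h3, h4⟩ := h.orth T S hT hS z hz hzT hzS
      exact ⟨e, he, h2, h1, (h.toM_isBase _ _).mpr h4, (h.toM_isBase _ _).mpr h3⟩

/-- chains of good pairs -/
def GCh (P : Finset α → Prop) (B B' : Finset α) : ℕ → Finset α → Finset α → Prop
  | 0, X, V => X = ∅ ∧ V = ∅
  | n + 1, X, V => Good P B B' X V ∧ ∃ x ∈ X, ∃ v ∈ V, GCh P B B' n (X.erase x) (V.erase v)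

theorem GCh.symm {P : Finset α → Prop} {B B' : Finset α} :
    ∀ (n : ℕ) (X V : Finset α), GCh P B B' n X V → GCh P B' B n V X := by
  intro n
  induction n with
  | zero => rintro X V ⟨h1, h2⟩; exact ⟨h2, h1⟩
  | succ n ih =>
    rintro X V ⟨h1, x, hx, v, hv, h2⟩
    exact ⟨h1.symm, v, hv, x, hx, ih _ _ h2⟩

theorem gch_of_ch {P : Finset α → Prop} (hP : SymExch P) {B B' Y : Finset α} (hB : P B)
    (hB' : P B') (hd : Disjoint B B') (hY : Y ⊆ B') :
    ∀ (n : ℕ) (X V : Finset α), X ⊆ B → V ⊆ Y →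
      Ch (pairSys_PP hP hB hB' hd hY).toM Y n X V → GCh P B B' n X V := by
  intro n
  induction n with
  | zero => intro X V _ _ h; exact h
  | succ n ih =>
    rintro X V hX hV ⟨h1, x, hx, v, hv, h2⟩
    refine ⟨good_of_PP hd hY hX hV fun s => ?_, x, hx, v, hv,
      ih _ _ ((Finset.erase_subset _ _).trans hX) ((Finset.erase_subset _ _).trans hV) h2⟩
    exact ((pairSys_PP hP hB hB' hd hY).toM_isBase s _).mp (h1 s)

/-- the number of elements needed for a chain of length `k` -/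
def nK (k : ℕ) : ℕ := rN k k

/-- Any `nK k` elements of `B'` contain `k` elements which have a serial symmetric exchange with some
`k` elements of `B`. -/
theorem exists_gch {P : Finset α → Prop} (hP : SymExch P) {B B' Y : Finset α} (hB : P B)
    (hB' : P B') (hd : Disjoint B B') (hY : Y ⊆ B') (k : ℕ) (hk : nK k ≤ Y.card) :
    ∃ X ⊆ B, ∃ V ⊆ Y, X.card = k ∧ V.card = k ∧ GCh P B B' k X V := by
  obtain ⟨X, hX, V, hV, h1, h2, h3⟩ := (pairSys_PP hP hB hB' hd hY).msys.exists_chain k hk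
  exact ⟨X, hX, V, hV, h1, h2, gch_of_ch hP hB hB' hd hY k X V hX hV h3⟩

/-- many chains whose second components are disjoint -/
theorem exists_gchs {P : Finset α → Prop} (hP : SymExch P) {B B' : Finset α} (hB : P B)
    (hB' : P B') (hd : Disjoint B B') (k : ℕ) :
    ∀ m : ℕ, m * k + nK k ≤ B'.card → ∃ f g : ℕ → Finset α,
      (∀ i < m, f i ⊆ B ∧ g i ⊆ B' ∧ (f i).card = k ∧ (g i).card = k ∧
        GCh P B B' k (f i) (g i)) ∧
      ∀ i < m, ∀ j < m, i ≠ j → Disjoint (g i) (g j) := by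
  intro m
  induction m with
  | zero =>
    intro _
    exact ⟨fun _ => ∅, fun _ => ∅, fun i hi => absurd hi (Nat.not_lt_zero _),
      fun i hi => absurd hi (Nat.not_lt_zero _)⟩
  | succ m ih =>
    intro hm
    have hm' : (m + 1) * k = m * k + k := by ring
    obtain ⟨f, g, h1, h2⟩ := ih (by omega)
    have hU : ((Finset.range m).biUnion g).card ≤ m * k := by
      refine Finset.card_biUnion_le.trans ?_
      rw [Finset.sum_congr rfl (fun i hi => (h1 i (Finset.mem_range.mp hi)).2.2.2.1)]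
      simp
    have hUB : (Finset.range m).biUnion g ⊆ B' :=
      Finset.biUnion_subset.mpr fun i hi => (h1 i (Finset.mem_range.mp hi)).2.1
    have hsd := Finset.card_sdiff_of_subset hUB
    obtain ⟨X, hX, V, hV, hXc, hVc, hch⟩ := exists_gch hP hB hB' hd
      (Y := B' \ (Finset.range m).biUnion g) Finset.sdiff_subset k (by omega)
    have hVd : ∀ i < m, Disjoint (g i) V := by
      intro i hi
      rw [Finset.disjoint_left]
      intro u hu hu'
      exact (Finset.mem_sdiff.mp (hV hu')).2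
        (Finset.mem_biUnion.mpr ⟨i, Finset.mem_range.mpr hi, hu⟩)
    refine ⟨fun i => if i = m then X else f i, fun i => if i = m then V else g i, ?_, ?_⟩
    · intro i hi
      by_cases him : i = m
      · simp only [him, if_true]
        exact ⟨hX, hV.trans Finset.sdiff_subset, hXc, hVc, hch⟩
      · simp only [him, if_false]
        exact h1 i (by omega)
    · intro i hi j hj hij
      by_cases him : i = m
      · have hjm : j ≠ m := fun h => hij (him.trans h.symm)
        simp only [him, if_true, hjm, if_false]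
        exact (hVd j (by omega)).symm
      · by_cases hjm : j = m
        · simp only [him, if_false, hjm, if_true]
          exact hVd i (by omega)
        · simp only [him, if_false, hjm]
          exact h2 i (by omega) j (by omega) hij

/-- two chains which are disjoint in both coordinates -/
theorem exists_two {P : Finset α → Prop} (hP : SymExch P) {B B' : Finset α} (hB : P B)
    (hB' : P B') (hd : Disjoint B B') (k : ℕ) (hk : (k + 1) * k + nK k ≤ B'.card) :
    ∃ X V X' V', X ⊆ B ∧ V ⊆ B' ∧ X' ⊆ B ∧ V' ⊆ B' ∧ GCh P B B' k X V ∧ GCh P B B' k X' V' ∧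
      Disjoint X X' ∧ Disjoint V V' := by
  obtain ⟨f, g, h1, h2⟩ := exists_gchs hP hB hB' hd k (k + 1) hk
  have hU : ((Finset.range (k + 1)).biUnion f).card ≤ (k + 1) * k := by
    refine Finset.card_biUnion_le.trans ?_
    rw [Finset.sum_congr rfl (fun i hi => (h1 i (Finset.mem_range.mp hi)).2.2.1)]
    simp
  have hUB : (Finset.range (k + 1)).biUnion f ⊆ B :=
    Finset.biUnion_subset.mpr fun i hi => (h1 i (Finset.mem_range.mp hi)).1
  have hsd := Finset.card_sdiff_of_subset hUB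
  have hc := hP.card_eq hB hB'
  obtain ⟨V', hV', X', hX', hV'c, hX'c, hch⟩ := exists_gch hP hB' hB hd.symm
    (Y := B \ (Finset.range (k + 1)).biUnion f) Finset.sdiff_subset k (by omega)
  have hXd : ∀ i < k + 1, Disjoint (f i) X' := by
    intro i hi
    rw [Finset.disjoint_left]
    intro u hu hu'
    exact (Finset.mem_sdiff.mp (hX' hu')).2
      (Finset.mem_biUnion.mpr ⟨i, Finset.mem_range.mpr hi, hu⟩)
  obtain ⟨i, hi, hdi⟩ : ∃ i < k + 1, Disjoint (g i) V' := by
    by_contra hcon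
    push Not at hcon
    have hex : ∀ i : Fin (k + 1), ∃ v ∈ V', v ∈ g i := by
      intro i
      obtain ⟨v, hv1, hv2⟩ := Finset.not_disjoint_iff.mp (hcon i i.isLt)
      exact ⟨v, hv2, hv1⟩
    choose v hv1 hv2 using hex
    have hle : (Finset.univ : Finset (Fin (k + 1))).card ≤ V'.card := by
      refine Finset.card_le_card_of_injOn v (fun i _ => Finset.mem_coe.mpr (hv1 i)) ?_
      intro i _ j _ hij
      by_contra hne
      exact Finset.disjoint_left.mp (h2 i i.isLt j j.isLt (fun h' => hne (Fin.ext h')))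
        (hv2 i) (by rw [hij]; exact hv2 j)
    rw [Finset.card_univ, Fintype.card_fin] at hle
    omega
  obtain ⟨a1, a2, -, -, a5⟩ := h1 i hi
  exact ⟨f i, g i, X', V', a1, a2, hX'.trans Finset.sdiff_subset, hV', a5,
    GCh.symm _ _ _ hch, hXd i hi, hdi⟩

end

theorem LX_snoc_le {r k : ℕ} (x : Fin k → Fin r) (a : Fin r) (m : ℕ) (hm : m ≤ k) :
    LX (Fin.snoc x a : Fin (k + 1) → Fin r) m = LX x m := by
  ext t
  rw [mem_LX, mem_LX]
  constructor
  · rintro ⟨j, hj, rfl⟩
    obtain ⟨j', rfl⟩ : ∃ j' : Fin k, j = Fin.castSucc j' := ⟨⟨j.val, by omega⟩, Fin.ext rfl⟩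
    exact ⟨j', hj, by rw [Fin.snoc_castSucc]⟩
  · rintro ⟨j, hj, rfl⟩
    exact ⟨Fin.castSucc j, hj, by rw [Fin.snoc_castSucc]⟩

theorem RY_snoc_le {r k : ℕ} (x : Fin k → Fin r) (a : Fin r) (m : ℕ) (hm : m ≤ k) :
    RY (Fin.snoc x a : Fin (k + 1) → Fin r) m = RY x m := by
  ext t
  rw [mem_RY, mem_RY]
  constructor
  · rintro ⟨j, hj, rfl⟩
    obtain ⟨j', rfl⟩ : ∃ j' : Fin k, j = Fin.castSucc j' := ⟨⟨j.val, by omega⟩, Fin.ext rfl⟩
    exact ⟨j', hj, by rw [Fin.snoc_castSucc]⟩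
  · rintro ⟨j, hj, rfl⟩
    exact ⟨Fin.castSucc j, hj, by rw [Fin.snoc_castSucc]⟩

theorem LX_snoc_last {r k : ℕ} (x : Fin k → Fin r) (a : Fin r) :
    LX (Fin.snoc x a : Fin (k + 1) → Fin r) (k + 1) = insert (Sum.inl a) (LX x k) := by
  ext t
  rw [mem_LX, Finset.mem_insert, mem_LX]
  constructor
  · rintro ⟨j, hj, rfl⟩
    rcases Nat.lt_or_ge j.val k with h | h
    · right
      obtain ⟨j', rfl⟩ : ∃ j' : Fin k, j = Fin.castSucc j' := ⟨⟨j.val, h⟩, Fin.ext rfl⟩
      exact ⟨j', h, by rw [Fin.snoc_castSucc]⟩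
    · left
      have : j = Fin.last k := Fin.ext (by rw [Fin.val_last]; omega)
      rw [this, Fin.snoc_last]
  · rintro (rfl | ⟨j, hj, rfl⟩)
    · exact ⟨Fin.last k, by simp, by rw [Fin.snoc_last]⟩
    · exact ⟨Fin.castSucc j, by rw [Fin.val_castSucc]; omega, by rw [Fin.snoc_castSucc]⟩

theorem RY_snoc_last {r k : ℕ} (x : Fin k → Fin r) (a : Fin r) :
    RY (Fin.snoc x a : Fin (k + 1) → Fin r) (k + 1) = insert (Sum.inr a) (RY x k) := by
  ext t
  rw [mem_RY, Finset.mem_insert, mem_RY]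
  constructor
  · rintro ⟨j, hj, rfl⟩
    rcases Nat.lt_or_ge j.val k with h | h
    · right
      obtain ⟨j', rfl⟩ : ∃ j' : Fin k, j = Fin.castSucc j' := ⟨⟨j.val, h⟩, Fin.ext rfl⟩
      exact ⟨j', h, by rw [Fin.snoc_castSucc]⟩
    · left
      have : j = Fin.last k := Fin.ext (by rw [Fin.val_last]; omega)
      rw [this, Fin.snoc_last]
  · rintro (rfl | ⟨j, hj, rfl⟩)
    · exact ⟨Fin.last k, by simp, by rw [Fin.snoc_last]⟩
    · exact ⟨Fin.castSucc j, by rw [Fin.val_castSucc]; omega, by rw [Fin.snoc_castSucc]⟩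

/-- a chain as a pair of sequences -/
theorem GCh.seq {r : ℕ} {P : Finset (Idx r) → Prop} (h0 : Good P (B₀ r) (B₁ r) ∅ ∅) :
    ∀ (k : ℕ) (X V : Finset (Idx r)), X ⊆ B₀ r → V ⊆ B₁ r → GCh P (B₀ r) (B₁ r) k X V →
    ∃ x y : Fin k → Fin r, Function.Injective x ∧ Function.Injective y ∧ LX x k = X ∧
      RY y k = V ∧ ∀ m ≤ k, Good P (B₀ r) (B₁ r) (LX x m) (RY y m) := by
  intro k
  induction k with
  | zero =>
    rintro X V _ _ ⟨rfl, rfl⟩
    refine ⟨Fin.elim0, Fin.elim0, fun i => i.elim0, fun i => i.elim0, ?_, ?_, fun m hm => ?_⟩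
    · ext t; rw [mem_LX]; simp
    · ext t; rw [mem_RY]; simp
    · have e1 : LX (Fin.elim0 : Fin 0 → Fin r) m = ∅ := by
        ext t; rw [mem_LX]; simp
      have e2 : RY (Fin.elim0 : Fin 0 → Fin r) m = ∅ := by
        ext t; rw [mem_RY]; simp
      rw [e1, e2]
      exact h0
  | succ k ih =>
    rintro X V hX hV ⟨hg, x, hx, v, hv, h⟩
    obtain ⟨a, rfl⟩ := (mem_B₀ _).mp (hX hx)
    obtain ⟨b, rfl⟩ := (mem_B₁ _).mp (hV hv)
    obtain ⟨x, y, hxi, hyi, hLX, hRY, hm⟩ := ih _ _ ((Finset.erase_subset _ _).trans hX)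
      ((Finset.erase_subset _ _).trans hV) h
    have ha : ∀ j, x j ≠ a := by
      intro j hj
      have : (Sum.inl (x j) : Idx r) ∈ LX x k := (mem_LX _ _ _).mpr ⟨j, j.isLt, rfl⟩
      rw [hLX, hj] at this
      exact Finset.notMem_erase _ _ this
    have hb : ∀ j, y j ≠ b := by
      intro j hj
      have : (Sum.inr (y j) : Idx r) ∈ RY y k := (mem_RY _ _ _).mpr ⟨j, j.isLt, rfl⟩
      rw [hRY, hj] at this
      exact Finset.notMem_erase _ _ this
    have e1 : LX (Fin.snoc x a : Fin (k + 1) → Fin r) (k + 1) = X := by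
      rw [LX_snoc_last, hLX, Finset.insert_erase hx]
    have e2 : RY (Fin.snoc y b : Fin (k + 1) → Fin r) (k + 1) = V := by
      rw [RY_snoc_last, hRY, Finset.insert_erase hv]
    refine ⟨Fin.snoc x a, Fin.snoc y b, ?_, ?_, e1, e2, fun m hmk => ?_⟩
    · rw [Fin.snoc_injective_iff]
      exact ⟨hxi, fun ⟨j, hj⟩ => ha j hj⟩
    · rw [Fin.snoc_injective_iff]
      exact ⟨hyi, fun ⟨j, hj⟩ => hb j hj⟩
    · rcases Nat.lt_or_ge k m with h1 | h1
      · have : m = k + 1 := by omega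
        rw [this, e1, e2]
        exact hg
      · rw [LX_snoc_le _ _ _ h1, RY_snoc_le _ _ _ h1]
        exact hm m h1

/-- **Long serial symmetric exchanges at both ends.** -/
theorem long_blocks {α : Type*} (M : Matroid α) (k : ℕ) {r : ℕ}
    (hr : (k + 1) * k + nK k + 2 * k ≤ r) (b b' : Fin r → α)
    (hb : Function.Injective b) (hb' : Function.Injective b')
    (hB : M.IsBase (Set.range b)) (hB' : M.IsBase (Set.range b')) :
    ∃ σ σ' : Equiv.Perm (Fin r), ∀ i : Fin (r + r), (i.val % r ≤ k ∨ r ≤ i.val % r + k) →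
      M.IsBase (block (b ∘ σ) (b' ∘ σ') i) := by
  have hA := base_B₀ (b' := b') hb hB
  have hA' := base_B₁ (b := b) hb' hB'
  have hd : Disjoint (B₀ r) (B₁ r) := by
    rw [Finset.disjoint_left]
    intro t ht ht'
    rw [mem_B₀] at ht
    rw [mem_B₁] at ht'
    obtain ⟨j, rfl⟩ := ht
    obtain ⟨j', h⟩ := ht'
    exact absurd h (by simp)
  have h0 : Good (BP M (Sum.elim b b')) (B₀ r) (B₁ r) ∅ ∅ := by
    constructor
    · simpa using hA
    · simpa using hA'
  obtain ⟨X, V, X', V', hX, hV, hX', hV', hc, hc', dX, dV⟩ :=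
    exists_two (symExch_BP M (Sum.elim b b')) hA hA' hd k (by
      rw [show (B₁ r).card = r by simp [B₁]]
      omega)
  obtain ⟨x, y, hxi, hyi, hLX, hRY, hm⟩ := GCh.seq h0 k X V hX hV hc
  obtain ⟨x', y', hxi', hyi', hLX', hRY', hm'⟩ := GCh.seq h0 k X' V' hX' hV' hc'
  have hinj : Function.Injective (Sum.elim x x') := by
    refine hxi.sumElim hxi' fun i j hij => ?_
    have h1 : (Sum.inl (x i) : Idx r) ∈ X := by
      rw [← hLX]; exact (mem_LX _ _ _).mpr ⟨i, i.isLt, rfl⟩
    have h2 : (Sum.inl (x' j) : Idx r) ∈ X' := by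
      rw [← hLX']; exact (mem_LX _ _ _).mpr ⟨j, j.isLt, rfl⟩
    rw [hij] at h1
    exact Finset.disjoint_left.mp dX h1 h2
  have hinj' : Function.Injective (Sum.elim y y') := by
    refine hyi.sumElim hyi' fun i j hij => ?_
    have h1 : (Sum.inr (y i) : Idx r) ∈ V := by
      rw [← hRY]; exact (mem_RY _ _ _).mpr ⟨i, i.isLt, rfl⟩
    have h2 : (Sum.inr (y' j) : Idx r) ∈ V' := by
      rw [← hRY']; exact (mem_RY _ _ _).mpr ⟨j, j.isLt, rfl⟩
    rw [hij] at h1
    exact Finset.disjoint_left.mp dV h1 h2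
  obtain ⟨σ, σ', -, -, hblocks⟩ := orderings_of_chains (k := k) (l := k) (by omega) (M := M)
    (b := b) (b' := b') (x := Sum.elim x x') (y := Sum.elim y y') hinj hinj'
    (fun m hmk => hm m hmk) (fun m hmk _ => hm' m hmk)
  exact ⟨σ, σ', hblocks⟩

end Pool.Agent.Gabow87
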