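import Pool.Agent.Gabow87.R.Stuck

/-!
# Generic sets and the main step
-/

set_option autoImplicit false

namespace Pool.Agent.Gabow87

variable {α : Type*} [DecidableEq α]

/-- all pairs of subsets of `X` and `G` of the same size are states -/
def Gen (D : Bool → Matroid α) (Y X G : Finset α) : Prop :=
  ∀ X₀ ⊆ X, ∀ T ⊆ G, T.card = X₀.card → ∀ s, St D Y s X₀ T

theorem Gen.ch {D : Bool → Matroid α} {Y X G : Finset α} (hG : Gen D Y X G) :
    ∀ (n : ℕ), ∀ X₀ ⊆ X, ∀ T ⊆ G, X₀.card = n → T.card = n → Ch D Y n X₀ T := by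
  intro n
  induction n with
  | zero =>
    intro X₀ _ T _ h1 h2
    exact ⟨Finset.card_eq_zero.mp h1, Finset.card_eq_zero.mp h2⟩
  | succ n ih =>
    intro X₀ hX₀ T hT h1 h2
    obtain ⟨x, hx⟩ : X₀.Nonempty := by rw [← Finset.card_pos]; omega
    obtain ⟨v, hv⟩ : T.Nonempty := by rw [← Finset.card_pos]; omega
    refine ⟨hG X₀ hX₀ T hT (by omega), x, hx, v, hv, ?_⟩
    refine ih _ ((Finset.erase_subset _ _).trans hX₀) _ ((Finset.erase_subset _ _).trans hT) ?_ ?_
    · rw [Finset.card_erase_of_mem hx]; omega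
    · rw [Finset.card_erase_of_mem hv]; omega

theorem Gen.mono {D : Bool → Matroid α} {Y X G G' : Finset α} (hG : Gen D Y X G) (h : G' ⊆ G) :
    Gen D Y X G' := fun X₀ hX₀ T hT => hG X₀ hX₀ T (hT.trans h)

theorem Gen.flex {D : Bool → Matroid α} {B Y X G : Finset α} (hG : Gen D Y X G) (hX : X ⊆ B)
    (hGY : G ⊆ Y) : Flex D B Y X ∅ G X.card X.card where
  hX := hX
  hF := Finset.empty_subset _
  hQ := hGY
  hd := Finset.disjoint_empty_left _
  hXc := rfl
  hc := by simp
  ch := fun T hT hTc => by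
    rw [Finset.empty_union]
    exact hG.ch _ X (Finset.Subset.refl _) T hT rfl hTc
  inv := fun f hf => absurd hf (Finset.notMem_empty _)

namespace MSys

variable {D : Bool → Matroid α} {B Y : Finset α}

theorem exists_gen (h : MSys D B Y) {X Q : Finset α} {m N : ℕ} (hX : X ⊆ B) (hQ : Q ⊆ Y)
    (hind : ∀ s, ∀ Q' ⊆ Q, m ≤ Q'.card → (D s).Indep ((X ∪ (Y \ Q') : Finset α) : Set α))
    (hcard : N + (2 ^ X.card * (2 ^ N * 2)) * m < Q.card) :
    ∃ G ⊆ Q, G.card = N ∧ Gen D Y X G := by
  classical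
  by_cases hex : ∃ G ⊆ Q, Gen D Y X G ∧ N ≤ G.card
  · obtain ⟨G, hGQ, hG, hc⟩ := hex
    obtain ⟨G', hG', hc'⟩ := Finset.exists_subset_card_eq hc
    exact ⟨G', hG'.trans hGQ, hc', hG.mono hG'⟩
  push Not at hex
  have hempty : Gen D Y X ∅ := by
    intro X₀ _ T hT hTc s
    have hT' := Finset.subset_empty.mp hT
    subst hT'
    have : X₀ = ∅ := Finset.card_eq_zero.mp (by rw [← hTc]; rfl)
    subst this
    exact h.st_empty s
  obtain ⟨G, hG1, hG2⟩ := Finset.exists_max_image
    (Q.powerset.filter fun G => Gen D Y X G) Finset.card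
    ⟨∅, Finset.mem_filter.mpr ⟨Finset.empty_mem_powerset _, hempty⟩⟩
  rw [Finset.mem_filter, Finset.mem_powerset] at hG1
  have hGN := hex G hG1.1 hG1.2
  have hXY : ∀ x ∈ X, x ∉ Y := fun x hx => h.notMem_Y (hX hx)
  have key : ∀ q ∈ Q \ G, ∃ p : Finset α × (Finset α × Bool),
      p ∈ X.powerset ×ˢ (G.powerset ×ˢ Finset.univ) ∧ p.1.card = p.2.1.card + 1 ∧
      ¬ St D Y p.2.2 p.1 (insert q p.2.1) := by
    intro q hq
    rw [Finset.mem_sdiff] at hq
    have h1 : ¬ Gen D Y X (insert q G) := by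
      intro hcon
      have h2 := hG2 (insert q G) (by
        rw [Finset.mem_filter, Finset.mem_powerset]
        exact ⟨Finset.insert_subset hq.1 hG1.1, hcon⟩)
      rw [Finset.card_insert_of_notMem hq.2] at h2
      omega
    unfold Gen at h1
    push Not at h1
    obtain ⟨X₀, hX₀, T, hT, hTc, s, hst⟩ := h1
    have hqT : q ∈ T := by
      by_contra hqT
      refine hst (hG1.2 X₀ hX₀ T (fun y hy => ?_) hTc s)
      exact (Finset.mem_insert.mp (hT hy)).resolve_left fun h' => hqT (h' ▸ hy)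
    refine ⟨(X₀, T.erase q, s), ?_, ?_, ?_⟩
    · rw [Finset.mem_product, Finset.mem_product, Finset.mem_powerset, Finset.mem_powerset]
      refine ⟨hX₀, fun y hy => ?_, Finset.mem_univ _⟩
      rw [Finset.mem_erase] at hy
      exact (Finset.mem_insert.mp (hT hy.2)).resolve_left hy.1
    · change X₀.card = (T.erase q).card + 1
      have := Finset.card_pos.mpr ⟨q, hqT⟩
      rw [Finset.card_erase_of_mem hqT]; omega
    · change ¬ St D Y s X₀ (insert q (T.erase q))
      rwa [Finset.insert_erase hqT]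
  choose! f hf1 hf2 hf3 using key
  have hlt : (X.powerset ×ˢ (G.powerset ×ˢ (Finset.univ : Finset Bool))).card * m <
      (Q \ G).card := by
    have h1 := Finset.card_sdiff_of_subset hG1.1
    have h2 : (X.powerset ×ˢ (G.powerset ×ˢ (Finset.univ : Finset Bool))).card ≤
        2 ^ X.card * (2 ^ N * 2) := by
      rw [Finset.card_product, Finset.card_product, Finset.card_powerset, Finset.card_powerset,
        Finset.card_univ, Fintype.card_bool]
      exact Nat.mul_le_mul_left _ (Nat.mul_le_mul_right _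
        (Nat.pow_le_pow_right (by norm_num) hGN.le))
    have h3 := Nat.mul_le_mul_right m h2
    omega
  obtain ⟨⟨X₀, T', s⟩, hp, hfib⟩ :=
    Finset.exists_lt_card_fiber_of_mul_lt_card_of_maps_to hf1 hlt
  set R := (Q \ G).filter fun x => f x = (X₀, T', s) with hR
  have hRm : ∀ q ∈ R, q ∈ Q ∧ q ∉ G ∧ X₀.card = T'.card + 1 ∧ ¬ St D Y s X₀ (insert q T') := by
    intro q hq
    rw [hR, Finset.mem_filter, Finset.mem_sdiff] at hq
    have h2 := hf2 q (Finset.mem_sdiff.mpr hq.1)
    have h3 := hf3 q (Finset.mem_sdiff.mpr hq.1)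
    rw [hq.2] at h2 h3
    exact ⟨hq.1.1, hq.1.2, h2, h3⟩
  rw [Finset.mem_product, Finset.mem_product, Finset.mem_powerset, Finset.mem_powerset] at hp
  have hX₀ : X₀ ⊆ X := hp.1
  have hT'G : T' ⊆ G := hp.2.1
  have hRQ : R ⊆ Q := fun q hq => (hRm q hq).1
  have hI : (D s).Indep ((X₀ ∪ (Y \ (T' ∪ R)) : Finset α) : Set α) := by
    refine (hind s (T' ∪ R) (Finset.union_subset (hT'G.trans hG1.1) hRQ) ?_).subset ?_
    · have := Finset.card_le_card (Finset.subset_union_right (s₁ := T') (s₂ := R))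
      omega
    · rw [Finset.coe_subset]
      exact Finset.union_subset_union hX₀ (Finset.Subset.refl _)
  obtain ⟨q₀, hq₀⟩ : R.Nonempty := by rw [← Finset.card_pos]; omega
  have hcardX₀ := (hRm q₀ hq₀).2.2.1
  obtain ⟨x, hx⟩ : X₀.Nonempty := by rw [← Finset.card_pos]; omega
  have hS0 := hG1.2 (X₀.erase x) ((Finset.erase_subset _ _).trans hX₀) T' hT'G
    (by rw [Finset.card_erase_of_mem hx]; omega) s
  obtain ⟨W, hW, hIW, hWS⟩ := exists_base hI hS0
  have hWsub : W ⊆ X₀ ∪ (Y \ T') := by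
    intro u hu
    have h1 := hWS hu
    simp only [Finset.mem_union, Finset.mem_sdiff, Finset.mem_erase, not_or] at h1 ⊢
    tauto
  have hcW := base_card hW hS0
  have hdX : ∀ Z : Finset α, Disjoint X₀ (Y \ Z) := by
    intro Z
    rw [Finset.disjoint_left]
    intro u hu hu'
    exact hXY u (hX₀ hu) (Finset.mem_sdiff.mp hu').1
  have hne : W ≠ X₀ ∪ (Y \ T') := by
    intro heq
    rw [heq, Finset.card_union_of_disjoint (hdX _), Finset.card_union_of_disjoint
      (Finset.disjoint_of_subset_left (Finset.erase_subset _ _) (hdX _)),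
      Finset.card_erase_of_mem hx] at hcW
    omega
  obtain ⟨q, hq, hqW⟩ : ∃ q ∈ X₀ ∪ (Y \ T'), q ∉ W := by
    by_contra hcon
    push Not at hcon
    exact hne (Finset.Subset.antisymm hWsub hcon)
  have hqI : q ∉ X₀ ∪ (Y \ (T' ∪ R)) := fun h' => hqW (hIW h')
  simp only [Finset.mem_union, Finset.mem_sdiff, not_or, not_and, not_not] at hq hqI
  have hqR : q ∈ R := by tauto
  have hqY : q ∈ Y := by tauto
  have hqT' : q ∉ T' := by tauto
  exfalso
  apply (hRm q hqR).2.2.2
  have hWeq : W = X₀ ∪ (Y \ insert q T') := by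
    refine Finset.eq_of_subset_of_card_le ?_ ?_
    · intro u hu
      have h1 := hWsub hu
      simp only [Finset.mem_union, Finset.mem_sdiff, Finset.mem_insert, not_or] at h1 ⊢
      rcases h1 with h1 | h1
      · exact Or.inl h1
      · exact Or.inr ⟨h1.1, fun h' => hqW (h' ▸ hu), h1.2⟩
    · rw [hcW, Finset.card_union_of_disjoint (hdX _), Finset.card_union_of_disjoint
        (Finset.disjoint_of_subset_left (Finset.erase_subset _ _) (hdX _)),
        Finset.card_erase_of_mem hx]
      have e1 : (Y \ insert q T') = (Y \ T').erase q := by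
        ext u
        simp only [Finset.mem_sdiff, Finset.mem_insert, Finset.mem_erase, not_or]
        tauto
      rw [e1, Finset.card_erase_of_mem (Finset.mem_sdiff.mpr ⟨hqY, hqT'⟩)]
      have := Finset.card_pos.mpr ⟨q, Finset.mem_sdiff.mpr ⟨hqY, hqT'⟩⟩
      omega
  unfold St
  rw [← hWeq]
  exact hW

end MSys

/-- replacing `x₀` by an element parallel to it modulo `X₁ ∪ R` -/
theorem swap_base {M : Matroid α} {X₁ R W₀ : Finset α} {x₀ e : α}
    (he : e ∈ M.closure (insert x₀ ((X₁ ∪ R : Finset α) : Set α)))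
    (he' : e ∉ M.closure ((X₁ ∪ R : Finset α) : Set α)) (hR : R ⊆ W₀)
    (hx₀ : x₀ ∉ X₁ ∪ W₀) (hne : e ∉ insert x₀ (X₁ ∪ W₀))
    (hb : M.IsBase ((insert x₀ (X₁ ∪ W₀) : Finset α) : Set α)) :
    M.IsBase ((insert e (X₁ ∪ W₀) : Finset α) : Set α) := by
  have h1 : x₀ ∈ M.closure (insert e ((X₁ ∪ R : Finset α) : Set α)) :=
    Matroid.mem_closure_insert he' he
  have hsub : ((X₁ ∪ R : Finset α) : Set α) ⊆ ((X₁ ∪ W₀ : Finset α) : Set α) := by
    rw [Finset.coe_subset]
    exact Finset.union_subset_union (Finset.Subset.refl _) hR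
  have hx₀' : x₀ ∉ M.closure ((X₁ ∪ W₀ : Finset α) : Set α) := by
    have h2 := hb.indep.notMem_closure_sdiff_of_mem (e := x₀)
      (Finset.mem_coe.mpr (Finset.mem_insert_self _ _))
    have h3 : (((insert x₀ (X₁ ∪ W₀) : Finset α) : Set α) \ {x₀}) =
        ((X₁ ∪ W₀ : Finset α) : Set α) := by
      rw [Finset.coe_insert, Set.insert_sdiff_of_mem _ (Set.mem_singleton _),
        Set.sdiff_singleton_eq_self]
      rw [Finset.mem_coe]
      exact hx₀
    rwa [h3] at h2
  have heW : e ∉ M.closure ((X₁ ∪ W₀ : Finset α) : Set α) := by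
    intro hcl
    apply hx₀'
    have h2 : insert e ((X₁ ∪ R : Finset α) : Set α) ⊆ M.closure ((X₁ ∪ W₀ : Finset α) : Set α) := by
      intro u hu
      rcases hu with rfl | hu
      · exact hcl
      · refine M.mem_closure_of_mem' (hsub hu) ?_
        refine hb.subset_ground ?_
        rw [Finset.coe_insert]
        exact Set.mem_insert_of_mem _ (hsub hu)
    exact M.closure_subset_closure_of_subset_closure h2 h1
  have hind : M.Indep ((X₁ ∪ W₀ : Finset α) : Set α) :=
    hb.indep.subset (by rw [Finset.coe_subset]; exact Finset.subset_insert _ _)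
  have heE : e ∈ M.E := Matroid.mem_ground_of_mem_closure he
  have h4 : M.Indep (insert e ((X₁ ∪ W₀ : Finset α) : Set α)) :=
    ((hind.notMem_closure_iff heE).mp heW).1
  have hex : x₀ ≠ e := fun h' => hne (h' ▸ Finset.mem_insert_self _ _)
  have h5 : insert e (((insert x₀ (X₁ ∪ W₀) : Finset α) : Set α)) \ {x₀} =
      insert e ((X₁ ∪ W₀ : Finset α) : Set α) := by
    rw [Finset.coe_insert]
    ext u
    simp only [Set.mem_sdiff, Set.mem_insert_iff, Finset.mem_coe, Set.mem_singleton_iff]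
    constructor
    · rintro ⟨h6 | h6 | h6, h7⟩
      · exact Or.inl h6
      · exact absurd h6 h7
      · exact Or.inr h6
    · rintro (rfl | h6)
      · exact ⟨Or.inl rfl, fun h' => hex h'.symm⟩
      · exact ⟨Or.inr (Or.inr h6), fun h' => hx₀ (h' ▸ h6)⟩
  have h6 := hb.exchange_isBase_of_indep' (e := x₀) (f := e)
    (Finset.mem_coe.mpr (Finset.mem_insert_self _ _)) (fun h' => hne (Finset.mem_coe.mp h'))
    (by rw [h5]; exact h4)
  rw [h5] at h6
  rwa [Finset.coe_insert]

end Pool.Agent.Gabow87
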