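import Pool.Agent.Gabow87.R.Pav

/-!
# Two paving matroids with a common base: families of common bases
-/

set_option autoImplicit false

namespace Pool.Agent.Gabow87

variable {α : Type*} [DecidableEq α]

/-- size needed for an extraction -/
def eN (N : ℕ) : ℕ := N + 2 ^ N * N + 1

theorem le_eN (N : ℕ) : N ≤ eN N := by unfold eN; omega

theorem Pav.extract' {t : ℕ} {Q : Finset α} {D : Finset α → Prop} (h : Pav t Q D) {N : ℕ}
    (hQ : eN N ≤ Q.card) :
    ∃ Q' ⊆ Q, Q'.card = N ∧
      ((∀ J ⊆ Q', J.card = t + 1 → D J) ∨ (∀ J ⊆ Q', J.card = t + 1 → ¬ D J)) :=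
  h.extract (by unfold eN at hQ; omega)

/-- one dependent, the other independent -/
theorem Pav.caseB {t N : ℕ} {Q : Finset α} {D₁ D₂ : Finset α → Prop} (h₁ : Pav t Q D₁)
    (h₂ : Pav t Q D₂) {J₀ : Finset α} (hJ₀ : J₀ ⊆ Q) (hJc : J₀.card = t + 1) (hJ₁ : ¬ D₁ J₀)
    (hJ₂ : ¬ D₂ J₀) {Q₂ : Finset α} (hQ₂ : Q₂ ⊆ Q) (hall : ∀ J ⊆ Q₂, J.card = t + 1 → D₁ J)
    (hnone : ∀ J ⊆ Q₂, J.card = t + 1 → ¬ D₂ J) (hcard : eN (N + t + 1) ≤ Q₂.card) :
    ∃ w ∈ Q, ∃ Q' ⊆ Q₂, w ∉ Q₂ ∧ Q'.card = N ∧
      ∀ T ⊆ Q', T.card = t → ¬ D₁ (insert w T) ∧ ¬ D₂ (insert w T) := by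
  have hle := le_eN (N + t + 1)
  obtain ⟨T₀, hT₀, hT₀c⟩ := Finset.exists_subset_card_eq (show t ≤ Q₂.card by omega)
  obtain ⟨H, hHQ, hTH, hH1, hH2, hH3⟩ := h₁.hyperplane (hT₀.trans hQ₂) hT₀c
  have hQH : Q₂ ⊆ H := by
    intro q hq
    by_cases hqT : q ∈ T₀
    · exact hTH hqT
    · refine hH3 q (hQ₂ hq) hqT (hall _ (Finset.insert_subset hq hT₀) ?_)
      rw [Finset.card_insert_of_notMem hqT, hT₀c]
  obtain ⟨w, hwJ, hwH⟩ : ∃ w ∈ J₀, w ∉ H := by
    by_contra hcon
    push Not at hcon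
    exact hJ₁ (hH1 J₀ hcon hJc)
  have hwQ := hJ₀ hwJ
  have hwQ₂ : w ∉ Q₂ := fun h => hwH (hQH h)
  have hD₁ : ∀ T ⊆ Q₂, T.card = t → ¬ D₁ (insert w T) := fun T hT hTc =>
    hH2 w hwQ hwH T (hT.trans hQH) hTc
  rcases Nat.eq_zero_or_pos t with ht | ht
  · subst ht
    obtain ⟨Q', hQ', hQc⟩ := Finset.exists_subset_card_eq (show N ≤ Q₂.card by omega)
    refine ⟨w, hwQ, Q', hQ', hwQ₂, hQc, fun T hT hTc => ⟨hD₁ T (hT.trans hQ') hTc, ?_⟩⟩
    obtain ⟨v, hv⟩ := Finset.card_eq_one.mp hJc
    rw [hv, Finset.mem_singleton] at hwJ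
    rw [Finset.card_eq_zero] at hTc
    rw [hTc, hwJ, insert_empty_eq, ← hv]
    exact hJ₂
  · obtain ⟨t₀, rfl⟩ : ∃ t₀, t = t₀ + 1 := ⟨t - 1, by omega⟩
    have hP : Pav t₀ Q₂ (fun T => D₂ (insert w T)) := by
      intro U hU hUc a ha b hb hab hDa hDb c hc
      have hwU : w ∉ U := fun h => hwQ₂ (hU h)
      have he : ∀ x ∈ U, (insert w U).erase x = insert w (U.erase x) := fun x hx =>
        Finset.erase_insert_of_ne fun h => hwU (h ▸ hx)
      change D₂ (insert w (U.erase c))
      rw [← he c hc]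
      refine h₂ (insert w U) (Finset.insert_subset hwQ (hU.trans hQ₂))
        (by rw [Finset.card_insert_of_notMem hwU, hUc]) a (Finset.mem_insert_of_mem ha) b
        (Finset.mem_insert_of_mem hb) hab ?_ ?_ c (Finset.mem_insert_of_mem hc)
      · rw [he a ha]; exact hDa
      · rw [he b hb]; exact hDb
    obtain ⟨Q', hQ', hQc, hor⟩ := hP.extract' hcard
    rcases hor with hdep | hind
    · exfalso
      obtain ⟨I, hI, hIc⟩ := Finset.exists_subset_card_eq (show t₀ + 1 + 1 ≤ Q'.card by omega)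
      have hwI : w ∉ I := fun h => hwQ₂ (hQ' (hI h))
      obtain ⟨i, hi, j, hj, hij⟩ := Finset.one_lt_card.mp (show 1 < I.card by omega)
      have he : ∀ x ∈ I, (insert w I).erase x = insert w (I.erase x) := fun x hx =>
        Finset.erase_insert_of_ne fun h => hwI (h ▸ hx)
      have hd : ∀ x ∈ I, D₂ ((insert w I).erase x) := by
        intro x hx
        rw [he x hx]
        refine hdep (I.erase x) ((Finset.erase_subset _ _).trans hI) ?_
        rw [Finset.card_erase_of_mem hx, hIc]; omega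
      have := h₂ (insert w I) (Finset.insert_subset hwQ (hI.trans (hQ'.trans hQ₂)))
        (by rw [Finset.card_insert_of_notMem hwI, hIc]) i (Finset.mem_insert_of_mem hi) j
        (Finset.mem_insert_of_mem hj) hij (hd i hi) (hd j hj) w (Finset.mem_insert_self _ _)
      rw [Finset.erase_insert hwI] at this
      exact hnone I (hI.trans hQ') hIc this
    · obtain ⟨Q'', hQ'', hQc'⟩ := Finset.exists_subset_card_eq (show N ≤ Q'.card by omega)
      exact ⟨w, hwQ, Q'', hQ''.trans hQ', hwQ₂, hQc', fun T hT hTc =>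
        ⟨hD₁ T (hT.trans (hQ''.trans hQ')) hTc, hind T (hT.trans hQ'') hTc⟩⟩

/-- size needed for `Pav.pair` -/
def gN (t N : ℕ) : ℕ := eN (eN (eN (N + t + 1)))

/-- the main combinatorial lemma -/
theorem Pav.pair {t N : ℕ} {Q : Finset α} {D : Bool → Finset α → Prop} (h : ∀ s, Pav t Q (D s))
    {J₀ : Finset α} (hJ₀ : J₀ ⊆ Q) (hJc : J₀.card = t + 1) (hJ : ∀ s, ¬ D s J₀)
    (hcard : gN t N ≤ Q.card) :
    ∃ F ⊆ Q, ∃ Q' ⊆ Q, ∃ t', Disjoint F Q' ∧ Q'.card = N ∧ F.card + t' = t + 1 ∧
      (∀ T ⊆ Q', T.card = t' → ∀ s, ¬ D s (F ∪ T)) ∧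
      (∀ f ∈ F, ∃ s, ∀ T ⊆ Q', T.card = t' + 1 → D s ((F.erase f) ∪ T)) := by
  obtain ⟨Q₁, hQ₁, hc₁, hor₁⟩ := (h false).extract' hcard
  obtain ⟨Q₂, hQ₂, hc₂, hor₂⟩ := ((h true).mono hQ₁).extract' (N := eN (N + t + 1)) (by omega)
  have hle := le_eN (N + t + 1)
  have hQ₂' := hQ₂.trans hQ₁
  -- the shape with one fixed element
  have one : ∀ w ∈ Q, ∀ Q' ⊆ Q₂, w ∉ Q₂ → Q'.card = N → ∀ s₀ : Bool,
      (∀ T ⊆ Q', T.card = t → ∀ s, ¬ D s (insert w T)) →
      (∀ J ⊆ Q₂, J.card = t + 1 → D s₀ J) →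
      ∃ F ⊆ Q, ∃ Q' ⊆ Q, ∃ t', Disjoint F Q' ∧ Q'.card = N ∧ F.card + t' = t + 1 ∧
      (∀ T ⊆ Q', T.card = t' → ∀ s, ¬ D s (F ∪ T)) ∧
      (∀ f ∈ F, ∃ s, ∀ T ⊆ Q', T.card = t' + 1 → D s ((F.erase f) ∪ T)) := by
    intro w hw Q' hQ' hwQ hQc s₀ h1 h2
    refine ⟨{w}, Finset.singleton_subset_iff.mpr hw, Q', hQ'.trans hQ₂', t, ?_, hQc, ?_, ?_, ?_⟩
    · rw [Finset.disjoint_singleton_left]; exact fun h => hwQ (hQ' h)
    · rw [Finset.card_singleton]; omega
    · intro T hT hTc s
      rw [← Finset.insert_eq]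
      exact h1 T hT hTc s
    · intro f hf
      rw [Finset.mem_singleton] at hf
      refine ⟨s₀, fun T hT hTc => ?_⟩
      rw [hf, Finset.erase_singleton, Finset.empty_union]
      exact h2 T (hT.trans hQ') hTc
  rcases hor₁ with hdep₁ | hind₁
  · have hdep₁' : ∀ J ⊆ Q₂, J.card = t + 1 → D false J := fun J hJ' => hdep₁ J (hJ'.trans hQ₂)
    rcases hor₂ with hdep₂ | hind₂
    · -- both dependent
      obtain ⟨T₀, hT₀, hT₀c⟩ := Finset.exists_subset_card_eq (show t ≤ Q₂.card by omega)
      obtain ⟨Q', hQ', hQc⟩ := Finset.exists_subset_card_eq (show N ≤ Q₂.card by omega)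
      have hd : ∀ s, ∀ J ⊆ Q₂, J.card = t + 1 → D s J := by
        rintro (_ | _)
        · exact hdep₁'
        · exact hdep₂
      choose H hHQ hTH hH1 hH2 hH3 using fun s => (h s).hyperplane (hT₀.trans hQ₂') hT₀c
      have hQH : ∀ s, Q₂ ⊆ H s := by
        intro s q hq
        by_cases hqT : q ∈ T₀
        · exact hTH s hqT
        · refine hH3 s q (hQ₂' hq) hqT (hd s _ (Finset.insert_subset hq hT₀) ?_)
          rw [Finset.card_insert_of_notMem hqT, hT₀c]
      by_cases hw : ∃ w ∈ Q, ∀ s, w ∉ H s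
      · obtain ⟨w, hwQ, hwH⟩ := hw
        exact one w hwQ Q' hQ' (fun h' => hwH true (hQH true h')) hQc true
          (fun T hT hTc s => hH2 s w hwQ (hwH s) T (hT.trans (hQ'.trans (hQH s))) hTc) hdep₂
      · push Not at hw
        have hex : ∀ s, ∃ w ∈ J₀, w ∉ H s := by
          intro s
          by_contra hcon
          push Not at hcon
          exact hJ s (hH1 s J₀ hcon hJc)
        choose w hwJ hwH using hex
        have hwH' : ∀ s, w s ∈ H (!s) := by
          intro s
          obtain ⟨s', hs'⟩ := hw (w s) (hJ₀ (hwJ s))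
          have hne : s' ≠ s := fun h' => hwH s (h' ▸ hs')
          have : s' = !s := by cases s <;> cases s' <;> simp_all
          rw [← this]; exact hs'
        have hne : w false ≠ w true := fun h' => hwH false (h' ▸ hwH' true)
        have ht : 1 ≤ t := by
          by_contra ht
          have : J₀.card = 1 := by omega
          obtain ⟨v, hv⟩ := Finset.card_eq_one.mp this
          have h1 := hwJ false
          have h2 := hwJ true
          rw [hv, Finset.mem_singleton] at h1 h2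
          exact hne (h1.trans h2.symm)
        refine ⟨{w false, w true}, ?_, Q', hQ'.trans hQ₂', t - 1, ?_, hQc, ?_, ?_, ?_⟩
        · intro x hx
          rw [Finset.mem_insert, Finset.mem_singleton] at hx
          rcases hx with rfl | rfl <;> exact hJ₀ (hwJ _)
        · rw [Finset.disjoint_left]
          intro x hx hx'
          rw [Finset.mem_insert, Finset.mem_singleton] at hx
          rcases hx with rfl | rfl
          · exact hwH false (hQH false (hQ' hx'))
          · exact hwH true (hQH true (hQ' hx'))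
        · rw [Finset.card_pair hne]; omega
        · intro T hT hTc s
          have hrw : ({w false, w true} : Finset α) ∪ T = insert (w s) (insert (w (!s)) T) := by
            ext x
            cases s <;> simp only [Finset.mem_union, Finset.mem_insert, Finset.mem_singleton,
              Bool.not_false, Bool.not_true] <;> tauto
          rw [hrw]
          refine hH2 s (w s) (hJ₀ (hwJ s)) (hwH s) _ ?_ ?_
          · refine Finset.insert_subset ?_ (hT.trans (hQ'.trans (hQH s)))
            have := hwH' (!s)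
            rwa [Bool.not_not] at this
          · rw [Finset.card_insert_of_notMem
              (fun h' => hwH (!s) (hQH (!s) (hQ' (hT h')))), hTc]
            omega
        · intro f hf
          obtain ⟨s, hs⟩ : ∃ s, f = w s := by
            rw [Finset.mem_insert, Finset.mem_singleton] at hf
            rcases hf with h' | h'
            · exact ⟨false, h'⟩
            · exact ⟨true, h'⟩
          refine ⟨s, fun T hT hTc => ?_⟩
          have hrw : (({w false, w true} : Finset α).erase f) ∪ T = insert (w (!s)) T := by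
            ext x
            rw [hs]
            cases s <;> simp only [Finset.mem_union, Finset.mem_insert, Finset.mem_singleton,
              Finset.mem_erase, Bool.not_false, Bool.not_true] <;> grind
          rw [hrw]
          refine hH1 s _ ?_ ?_
          · refine Finset.insert_subset ?_ (hT.trans (hQ'.trans (hQH s)))
            have := hwH' (!s)
            rwa [Bool.not_not] at this
          · rw [Finset.card_insert_of_notMem
              (fun h' => hwH (!s) (hQH (!s) (hQ' (hT h')))), hTc]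
            omega
    · -- `false` dependent, `true` independent
      obtain ⟨w, hw, Q', hQ', hwQ, hQc, hT⟩ := (h false).caseB (N := N) (h true) hJ₀ hJc (hJ _) (hJ _)
        hQ₂' hdep₁' hind₂ (by omega)
      refine one w hw Q' hQ' hwQ hQc false (fun T h1 h2 s => ?_) hdep₁'
      cases s
      · exact (hT T h1 h2).1
      · exact (hT T h1 h2).2
  · have hind₁' : ∀ J ⊆ Q₂, J.card = t + 1 → ¬ D false J := fun J hJ' => hind₁ J (hJ'.trans hQ₂)
    rcases hor₂ with hdep₂ | hind₂
    · obtain ⟨w, hw, Q', hQ', hwQ, hQc, hT⟩ := (h true).caseB (N := N) (h false) hJ₀ hJc (hJ _) (hJ _)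
        hQ₂' hdep₂ hind₁' (by omega)
      refine one w hw Q' hQ' hwQ hQc true (fun T h1 h2 s => ?_) hdep₂
      cases s
      · exact (hT T h1 h2).2
      · exact (hT T h1 h2).1
    · obtain ⟨Q', hQ', hQc⟩ := Finset.exists_subset_card_eq (show N ≤ Q₂.card by omega)
      refine ⟨∅, Finset.empty_subset _, Q', hQ'.trans hQ₂', t + 1, Finset.disjoint_empty_left _,
        hQc, by simp, fun T hT hTc s => ?_, fun f hf => absurd hf (Finset.notMem_empty _)⟩
      rw [Finset.empty_union]
      cases s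
      · exact hind₁' T (hT.trans hQ') hTc
      · exact hind₂ T (hT.trans hQ') hTc

end Pool.Agent.Gabow87
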