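import Mathlib

/-!
# Dependent sets of paving matroids: extraction of homogeneous subsets
-/

set_option autoImplicit false

namespace Pool.Agent.Gabow87

variable {α : Type*} [DecidableEq α]

/-- `D` is the family of dependent `(t + 1)`-subsets of `Q` in a matroid of rank `t + 1` on `Q` all of
whose circuits have at least `t + 1` elements. -/
def Pav (t : ℕ) (Q : Finset α) (D : Finset α → Prop) : Prop :=
  ∀ U ⊆ Q, U.card = t + 2 → ∀ a ∈ U, ∀ b ∈ U, a ≠ b → D (U.erase a) → D (U.erase b) →
    ∀ c ∈ U, D (U.erase c)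

theorem Pav.mono {t : ℕ} {Q Q' : Finset α} {D : Finset α → Prop} (h : Pav t Q D) (hQ : Q' ⊆ Q) :
    Pav t Q' D := fun U hU => h U (hU.trans hQ)

/-- the closure of a set of `t` elements -/
theorem Pav.closure {t : ℕ} {Q : Finset α} {D : Finset α → Prop} (h : Pav t Q D) {T R : Finset α}
    (hT : T ⊆ Q) (hTc : T.card = t) (hR : R ⊆ Q) (hD : ∀ q ∈ R, q ∉ T → D (insert q T)) :
    ∀ J ⊆ T ∪ R, J.card = t + 1 → D J := by
  intro J hJ hJc
  obtain ⟨m, hm⟩ : ∃ m, (J \ T).card = m := ⟨_, rfl⟩
  induction m using Nat.strong_induction_on generalizing J with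
  | _ m ih =>
    have hpos : 0 < (J \ T).card := by
      have := Finset.le_card_sdiff T J
      omega
    rcases Nat.lt_or_ge 1 (J \ T).card with h1 | h1
    · obtain ⟨a, ha, b, hb, hab⟩ := Finset.one_lt_card.mp h1
      have hc : ∃ c ∈ T, c ∉ J := by
        by_contra hcon
        push Not at hcon
        have hTJ : T ⊆ J := hcon
        have := Finset.card_sdiff_of_subset hTJ
        omega
      obtain ⟨c, hcT, hcJ⟩ := hc
      have hcb : c ∉ J \ T := fun h => hcJ (Finset.mem_sdiff.mp h).1
      have key : ∀ x ∈ J \ T, D ((insert c J).erase x) := by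
        intro x hx
        have hx' := Finset.mem_sdiff.mp hx
        have hxc : x ≠ c := fun h => hcJ (h ▸ hx'.1)
        have hsub : (insert c J).erase x ⊆ T ∪ R := by
          intro y hy
          rw [Finset.mem_erase, Finset.mem_insert] at hy
          rcases hy.2 with rfl | hy2
          · exact Finset.mem_union_left _ hcT
          · exact hJ hy2
        have hcard : ((insert c J).erase x).card = t + 1 := by
          rw [Finset.card_erase_of_mem (Finset.mem_insert_of_mem hx'.1),
            Finset.card_insert_of_notMem hcJ, hJc]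
          omega
        have hsd : ((insert c J).erase x) \ T = (J \ T).erase x := by
          ext y
          simp only [Finset.mem_sdiff, Finset.mem_erase, Finset.mem_insert]
          constructor
          · rintro ⟨⟨h1, rfl | h2⟩, h3⟩
            · exact absurd hcT h3
            · exact ⟨h1, h2, h3⟩
          · rintro ⟨h1, h2, h3⟩
            exact ⟨⟨h1, Or.inr h2⟩, h3⟩
        refine ih ((J \ T).card - 1) (by omega) _ hsub hcard ?_
        rw [hsd, Finset.card_erase_of_mem hx]
      have hU : insert c J ⊆ Q := by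
        intro y hy
        rw [Finset.mem_insert] at hy
        rcases hy with rfl | hy
        · exact hT hcT
        · rcases Finset.mem_union.mp (hJ hy) with h | h
          · exact hT h
          · exact hR h
      have := h (insert c J) hU (by rw [Finset.card_insert_of_notMem hcJ, hJc]) a
        (Finset.mem_insert_of_mem (Finset.mem_sdiff.mp ha).1) b
        (Finset.mem_insert_of_mem (Finset.mem_sdiff.mp hb).1) hab (key a ha) (key b hb) c
        (Finset.mem_insert_self _ _)
      rwa [Finset.erase_insert hcJ] at this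
    · have h1' : (J \ T).card = 1 := by omega
      obtain ⟨q, hq⟩ := Finset.card_eq_one.mp h1'
      have hTJ : T ⊆ J := by
        have e1 := Finset.card_sdiff_add_card_inter J T
        have e2 : (J ∩ T).card = t := by omega
        have e3 : J ∩ T = T := Finset.eq_of_subset_of_card_le Finset.inter_subset_right (by omega)
        rw [← e3]
        exact Finset.inter_subset_left
      have hJq : J = insert q T := by
        ext y
        rw [Finset.mem_insert]
        constructor
        · intro hy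
          by_cases hyT : y ∈ T
          · exact Or.inr hyT
          · left
            have : y ∈ J \ T := Finset.mem_sdiff.mpr ⟨hy, hyT⟩
            rw [hq, Finset.mem_singleton] at this
            exact this
        · rintro (rfl | hy)
          · have : y ∈ J \ T := by rw [hq]; exact Finset.mem_singleton_self _
            exact (Finset.mem_sdiff.mp this).1
          · exact hTJ hy
      have hqJ : q ∈ J \ T := by rw [hq]; exact Finset.mem_singleton_self _
      have hq' := Finset.mem_sdiff.mp hqJ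
      rw [hJq]
      refine hD q ?_ hq'.2
      rcases Finset.mem_union.mp (hJ hq'.1) with h | h
      · exact absurd h hq'.2
      · exact h

/-- If all `(t + 1)`-subsets of a set are dependent, the elements outside of its closure. -/
theorem Pav.hyperplane {t : ℕ} {Q : Finset α} {D : Finset α → Prop} (h : Pav t Q D)
    {T : Finset α} (hT : T ⊆ Q) (hTc : T.card = t) :
    ∃ H ⊆ Q, T ⊆ H ∧ (∀ J ⊆ H, J.card = t + 1 → D J) ∧
      (∀ q ∈ Q, q ∉ H → ∀ T' ⊆ H, T'.card = t → ¬ D (insert q T')) ∧
      (∀ q ∈ Q, q ∉ T → D (insert q T) → q ∈ H) := by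
  classical
  refine ⟨Q.filter (fun q => q ∈ T ∨ D (insert q T)), Finset.filter_subset _ _, ?_, ?_, ?_, ?_⟩
  · intro q hq
    exact Finset.mem_filter.mpr ⟨hT hq, Or.inl hq⟩
  · intro J hJ hJc
    refine h.closure hT hTc (R := Q.filter (fun q => q ∈ T ∨ D (insert q T)))
      (Finset.filter_subset _ _) ?_ J (hJ.trans Finset.subset_union_right) hJc
    intro q hq hqT
    exact (Finset.mem_filter.mp hq).2.resolve_left hqT
  · intro q hq hqH T' hT' hTc' hD'
    set H := Q.filter (fun q => q ∈ T ∨ D (insert q T)) with hH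
    have hHQ : H ⊆ Q := Finset.filter_subset _ _
    have hTH : T ⊆ H := fun q hq => Finset.mem_filter.mpr ⟨hT hq, Or.inl hq⟩
    have hall : ∀ J ⊆ H, J.card = t + 1 → D J := by
      intro J hJ hJc
      refine h.closure hT hTc (R := H) hHQ ?_ J (hJ.trans Finset.subset_union_right) hJc
      intro q hq hqT
      exact (Finset.mem_filter.mp hq).2.resolve_left hqT
    have hqT : q ∉ T := fun h' => hqH (hTH h')
    apply hqH
    refine Finset.mem_filter.mpr ⟨hq, Or.inr ?_⟩
    refine h.closure (hT'.trans hHQ) hTc' (R := insert q H) (Finset.insert_subset hq hHQ) ?_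
      (insert q T) ?_ ?_
    · intro r hr hrT'
      rw [Finset.mem_insert] at hr
      rcases hr with rfl | hr
      · exact hD'
      · refine hall _ (Finset.insert_subset hr hT') ?_
        rw [Finset.card_insert_of_notMem hrT', hTc']
    · refine (Finset.insert_subset_insert _ hTH).trans Finset.subset_union_right
    · rw [Finset.card_insert_of_notMem hqT, hTc]
  · intro q hq hqT hD
    exact Finset.mem_filter.mpr ⟨hq, Or.inr hD⟩

/-- A large set contains a large subset all of whose `(t + 1)`-subsets are dependent, or all of whose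
`(t + 1)`-subsets are independent. -/
theorem Pav.extract {t : ℕ} {Q : Finset α} {D : Finset α → Prop} (h : Pav t Q D) {N : ℕ}
    (hQ : N + 2 ^ N * N < Q.card) :
    ∃ Q' ⊆ Q, Q'.card = N ∧
      ((∀ J ⊆ Q', J.card = t + 1 → D J) ∨ (∀ J ⊆ Q', J.card = t + 1 → ¬ D J)) := by
  classical
  by_cases hG : ∃ G ⊆ Q, (∀ J ⊆ G, J.card = t + 1 → ¬ D J) ∧ N ≤ G.card
  · obtain ⟨G, hGQ, hG1, hG2⟩ := hG
    obtain ⟨Q', hQ', hc⟩ := Finset.exists_subset_card_eq hG2
    exact ⟨Q', hQ'.trans hGQ, hc, Or.inr fun J hJ => hG1 J (hJ.trans hQ')⟩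
  push Not at hG
  obtain ⟨G, hG1, hG2⟩ := Finset.exists_max_image
    (Q.powerset.filter fun G => ∀ J ⊆ G, J.card = t + 1 → ¬ D J) Finset.card
    ⟨∅, Finset.mem_filter.mpr ⟨Finset.empty_mem_powerset _, fun J hJ hJc => by
      rw [Finset.subset_empty.mp hJ] at hJc; simp at hJc⟩⟩
  rw [Finset.mem_filter, Finset.mem_powerset] at hG1
  have hGN := hG G hG1.1 hG1.2
  have key : ∀ q ∈ Q \ G, ∃ T ∈ G.powerset, T.card = t ∧ D (insert q T) := by
    intro q hq
    rw [Finset.mem_sdiff] at hq
    by_contra hcon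
    push Not at hcon
    have h1 : insert q G ∈ Q.powerset.filter fun G => ∀ J ⊆ G, J.card = t + 1 → ¬ D J := by
      rw [Finset.mem_filter, Finset.mem_powerset]
      refine ⟨Finset.insert_subset hq.1 hG1.1, fun J hJ hJc hD => ?_⟩
      by_cases hqJ : q ∈ J
      · refine hcon (J.erase q) ?_ ?_ ?_
        · rw [Finset.mem_powerset]
          intro y hy
          rw [Finset.mem_erase] at hy
          exact (Finset.mem_insert.mp (hJ hy.2)).resolve_left hy.1
        · rw [Finset.card_erase_of_mem hqJ, hJc]; omega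
        · rwa [Finset.insert_erase hqJ]
      · refine hG1.2 J (fun y hy => ?_) hJc hD
        exact (Finset.mem_insert.mp (hJ hy)).resolve_left (fun h' => hqJ (h' ▸ hy))
    have h2 := hG2 _ h1
    rw [Finset.card_insert_of_notMem hq.2] at h2
    omega
  choose! f hf1 hf2 hf3 using key
  have hcard : G.powerset.card * N < (Q \ G).card := by
    have h1 := Finset.card_sdiff_of_subset hG1.1
    have h2 : G.powerset.card ≤ 2 ^ N := by
      rw [Finset.card_powerset]
      exact Nat.pow_le_pow_right (by norm_num) hGN.le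
    have h3 : G.powerset.card * N ≤ 2 ^ N * N := Nat.mul_le_mul_right _ h2
    omega
  obtain ⟨T, hT, hfib⟩ := Finset.exists_lt_card_fiber_of_mul_lt_card_of_maps_to hf1 hcard
  obtain ⟨R, hR, hRc⟩ := Finset.exists_subset_card_eq hfib.le
  rw [Finset.mem_powerset] at hT
  have hne : ∃ q ∈ Q \ G, f q = T := by
    have : 0 < ((Q \ G).filter fun x => f x = T).card := by omega
    obtain ⟨q, hq⟩ := Finset.card_pos.mp this
    rw [Finset.mem_filter] at hq
    exact ⟨q, hq.1, hq.2⟩
  obtain ⟨q0, hq0, hfq0⟩ := hne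
  have hTc : T.card = t := by rw [← hfq0]; exact hf2 q0 hq0
  have hRQ : ∀ q ∈ R, q ∈ Q \ G ∧ f q = T := fun q hq => Finset.mem_filter.mp (hR hq)
  have hRQ' : R ⊆ Q := fun q hq => (Finset.mem_sdiff.mp (hRQ q hq).1).1
  refine ⟨R, hRQ', hRc, Or.inl fun J hJ hJc => ?_⟩
  refine h.closure (hT.trans hG1.1) hTc hRQ' ?_ J (hJ.trans Finset.subset_union_right) hJc
  intro q hq _
  rw [← (hRQ q hq).2]
  exact hf3 q (hRQ q hq).1

/-- the covering lemma -/
theorem Pav.cover {t : ℕ} (ht : 1 ≤ t) {Q : Finset α} {D₁ D₂ : Finset α → Prop} (h₁ : Pav t Q D₁)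
    (h₂ : Pav t Q D₂) {J₁ J₂ : Finset α} (hJ₁ : J₁ ⊆ Q) (hc₁ : J₁.card = t + 1) (hD₁ : ¬ D₁ J₁)
    (hJ₂ : J₂ ⊆ Q) (hc₂ : J₂.card = t + 1) (hD₂ : ¬ D₂ J₂) :
    ∃ J ⊆ Q, J.card = t + 1 ∧ ¬ D₁ J ∧ ¬ D₂ J := by
  by_contra hcon
  push Not at hcon
  have hJ12 : D₂ J₁ := hcon J₁ hJ₁ hc₁ hD₁
  obtain ⟨i₀, hi₀⟩ : J₁.Nonempty := by rw [← Finset.card_pos]; omega
  have hTc : (J₁.erase i₀).card = t := by rw [Finset.card_erase_of_mem hi₀, hc₁]; omega
  have hTQ : J₁.erase i₀ ⊆ Q := (Finset.erase_subset _ _).trans hJ₁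
  obtain ⟨a, ha, haT, haD⟩ : ∃ a ∈ J₂, a ∉ J₁.erase i₀ ∧ ¬ D₂ (insert a (J₁.erase i₀)) := by
    by_contra hno
    push Not at hno
    exact hD₂ (h₂.closure hTQ hTc hJ₂ hno J₂ Finset.subset_union_right hc₂)
  have haJ : a ∉ J₁ := by
    intro h
    have : a = i₀ := by
      by_contra hne
      exact haT (Finset.mem_erase.mpr ⟨hne, h⟩)
    rw [this, Finset.insert_erase hi₀] at haD
    exact haD hJ12
  have hUQ : insert a J₁ ⊆ Q := Finset.insert_subset (hJ₂ ha) hJ₁
  have hUc : (insert a J₁).card = t + 2 := by rw [Finset.card_insert_of_notMem haJ, hc₁]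
  have haU := Finset.mem_insert_self a J₁
  have hai : a ≠ i₀ := fun h => haJ (h ▸ hi₀)
  have e0 : (insert a J₁).erase a = J₁ := Finset.erase_insert haJ
  have e1 : (insert a J₁).erase i₀ = insert a (J₁.erase i₀) :=
    Finset.erase_insert_of_ne hai
  have h2 : ∀ i ∈ J₁, ¬ D₂ ((insert a J₁).erase i) := by
    intro i hi hD
    apply haD
    rw [← e1]
    exact h₂ _ hUQ hUc a haU i (Finset.mem_insert_of_mem hi) (fun h => haJ (h ▸ hi))
      (by rw [e0]; exact hJ12) hD i₀ (Finset.mem_insert_of_mem hi₀)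
  obtain ⟨i, hi, j, hj, hij⟩ := Finset.one_lt_card.mp (show 1 < J₁.card by omega)
  have h3 : ∀ i ∈ J₁, D₁ ((insert a J₁).erase i) := by
    intro i hi
    by_contra hD
    refine h2 i hi (hcon _ ((Finset.erase_subset _ _).trans hUQ) ?_ hD)
    rw [Finset.card_erase_of_mem (Finset.mem_insert_of_mem hi), hUc]
    omega
  apply hD₁
  rw [← e0]
  exact h₁ _ hUQ hUc i (Finset.mem_insert_of_mem hi) j (Finset.mem_insert_of_mem hj) hij
    (h3 i hi) (h3 j hj) a haU

end Pool.Agent.Gabow87
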