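import Pool.Agent.Gabow87.R.Gen

/-!
# The main step: longer chains
-/

set_option autoImplicit false

namespace Pool.Agent.Gabow87

variable {α : Type*} [DecidableEq α]

namespace MSys

variable {D : Bool → Matroid α} {B Y : Finset α}

/-- A generic set without extension can be modified and then extended. -/
theorem gen_stuck (h : MSys D B Y) {X Q : Finset α} {c N : ℕ} (hX : X ⊆ B) (hXc : X.card = c)
    (hc : 1 ≤ c) (hQ : Q ⊆ Y) (hG : Gen D Y X Q) (hcard1 : gN c N ≤ Q.card)
    (hcard2 : 2 * c ≤ Q.card)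
    (hno : ∀ x ∈ B, x ∉ X → ∀ J ⊆ Q, J.card = c + 1 → ¬ ∀ s, St D Y s (insert x X) (∅ ∪ J)) :
    ∃ X' F' Q' t', Q'.card = N ∧ Flex D B Y X' F' Q' t' (c + 1) := by
  have hXY : ∀ x ∈ X, x ∉ Y := fun x hx => h.notMem_Y (hX hx)
  have hfl : Flex D B Y X ∅ Q c c := by
    have := hG.flex hX hQ
    rwa [hXc] at this
  obtain ⟨x₀, hx₀⟩ : X.Nonempty := by rw [← Finset.card_pos]; omega
  obtain ⟨T, hT, hTc⟩ := Finset.exists_subset_card_eq (show c ≤ Q.card by omega)
  have hsd := Finset.card_sdiff_of_subset hT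
  obtain ⟨R, hR, hRc⟩ := Finset.exists_subset_card_eq (show c ≤ (Q \ T).card by omega)
  obtain ⟨z, hz⟩ : R.Nonempty := by rw [← Finset.card_pos]; omega
  set U := R.erase z with hU
  have hUc : U.card = c - 1 := by rw [hU, Finset.card_erase_of_mem hz, hRc]
  have hRQ : ∀ u ∈ R, u ∈ Q ∧ u ∉ T := fun u hu => Finset.mem_sdiff.mp (hR hu)
  have hUQ : U ⊆ Q := fun u hu => (hRQ u (Finset.mem_of_mem_erase hu)).1
  have hzQ := (hRQ z hz).1
  have hzT := (hRQ z hz).2
  have hzU : z ∉ U := Finset.notMem_erase _ _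
  have hzY : z ∈ Y := hQ hzQ
  have hzX : z ∉ X := fun h' => hXY z h' hzY
  have hXec : (X.erase x₀).card = c - 1 := by rw [Finset.card_erase_of_mem hx₀, hXc]
  have hTQY := hT.trans hQ
  -- the new elements
  have hex : ∀ s, ∃ e ∈ B, e ∉ X ∧ St D Y s (insert e X) (insert z T) ∧
      St D Y (!s) (insert e (X.erase x₀)) (insert z U) := by
    intro s
    have hS := hG X (Finset.Subset.refl _) T hT (by omega) s
    have hS2 := hG (X.erase x₀) (Finset.erase_subset _ _) U hUQ (by omega) (!s)
    obtain ⟨e, heBY, he1, he2, he3, he4⟩ := h.orth s _ _ hS hS2 z hzY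
      (Finset.mem_union_right _ (Finset.mem_sdiff.mpr ⟨hzY, hzT⟩))
      (Finset.mem_union_right _ (Finset.mem_sdiff.mpr ⟨hzY, hzU⟩))
    have heX : e ∉ X := fun h' => he1 (Finset.mem_union_left _ h')
    have heY : e ∉ Y := by
      intro heY
      have h1 : e ∈ T := by
        by_contra hcon
        exact he1 (Finset.mem_union_right _ (Finset.mem_sdiff.mpr ⟨heY, hcon⟩))
      have h2 : e ∈ U := by
        by_contra hcon
        exact he2 (Finset.mem_union_right _ (Finset.mem_sdiff.mpr ⟨heY, hcon⟩))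
      exact (hRQ e (Finset.mem_of_mem_erase h2)).2 h1
    refine ⟨e, (Finset.mem_union.mp heBY).resolve_right heY, heX, ?_, ?_⟩
    · unfold St
      convert he3 using 2
      ext u
      simp only [Finset.mem_union, Finset.mem_sdiff, Finset.mem_insert, Finset.mem_erase, not_or]
      constructor
      · rintro ((h5 | h5) | ⟨h5, h6, h7⟩)
        · exact Or.inl h5
        · exact Or.inr ⟨fun h' => hzX (h' ▸ h5), Or.inl h5⟩
        · exact Or.inr ⟨h6, Or.inr ⟨h5, h7⟩⟩
      · rintro (h5 | ⟨h5, h6 | ⟨h6, h7⟩⟩)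
        · exact Or.inl (Or.inl h5)
        · exact Or.inl (Or.inr h6)
        · exact Or.inr ⟨h6, h5, h7⟩
    · unfold St
      convert he4 using 2
      ext u
      simp only [Finset.mem_union, Finset.mem_sdiff, Finset.mem_insert, Finset.mem_erase, not_or]
      constructor
      · rintro ((h5 | h5) | ⟨h5, h6, h7⟩)
        · exact Or.inl h5
        · exact Or.inr ⟨fun h' => hzX (h' ▸ h5.2), Or.inl h5⟩
        · exact Or.inr ⟨h6, Or.inr ⟨h5, h7⟩⟩
      · rintro (h5 | ⟨h5, h6 | ⟨h6, h7⟩⟩)
        · exact Or.inl (Or.inl h5)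
        · exact Or.inl (Or.inr h6)
        · exact Or.inr ⟨h6, h5, h7⟩
  choose e heB heX hst1 hst2 using hex
  have heY : ∀ s, e s ∉ Y := fun s => h.notMem_Y (heB s)
  -- in the other matroid they are in the closure of `X`
  have hcl : ∀ s, e s ∈ (D (!s)).closure ((X ∪ (Y \ Q) : Finset α) : Set α) := by
    intro s
    by_contra hcon
    refine h.dicho hfl hc hno (heB s) (heX s) fun s' => ?_
    by_cases hs' : s' = s
    · subst hs'
      refine ⟨insert z T, Finset.insert_subset hzQ hT, ?_, ?_⟩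
      · rw [Finset.card_insert_of_notMem hzT, hTc]
      · rw [Finset.empty_union]; exact hst1 s'
    · have hs'' : s' = !s := bool_eq_not hs'
      subst hs''
      refine h.exists_J hfl (by omega) (heB s) (heX s) ?_
      rwa [Finset.empty_union]
  -- a member of a base is not in the closure of a subset of the rest
  have hnotcl : ∀ s (I : Finset α) (u : α), u ∉ I →
      (D s).Indep ((insert u I : Finset α) : Set α) → u ∉ (D s).closure (I : Set α) := by
    intro s I u hu hind
    have h2 := hind.notMem_closure_sdiff_of_mem (e := u)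
      (Finset.mem_coe.mpr (Finset.mem_insert_self _ _))
    have h3 : (((insert u I : Finset α) : Set α) \ {u}) = (I : Set α) := by
      rw [Finset.coe_insert, Set.insert_sdiff_of_mem _ (Set.mem_singleton _),
        Set.sdiff_singleton_eq_self]
      rw [Finset.mem_coe]
      exact hu
    rwa [h3] at h2
  have hself : ∀ s, e s ∉ (D s).closure ((X ∪ (Y \ Q) : Finset α) : Set α) := by
    intro s
    refine hnotcl s _ _ ?_ ((hst1 s).indep.subset ?_)
    · rw [Finset.mem_union, Finset.mem_sdiff]
      have := heX s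
      have := heY s
      tauto
    · rw [Finset.coe_subset]
      intro u hu
      have h1 := @hT u
      simp only [Finset.mem_union, Finset.mem_sdiff, Finset.mem_insert, not_or] at hu ⊢
      rcases hu with hu | hu | hu
      · exact Or.inl (Or.inl hu)
      · exact Or.inl (Or.inr hu)
      · refine Or.inr ⟨hu.1, fun h' => hu.2 (h' ▸ hzQ), fun h' => hu.2 (h1 h')⟩
  have hncl : ∀ s, e s ∉ (D (!s)).closure ((X.erase x₀ ∪ (Y \ Q) : Finset α) : Set α) := by
    intro s
    refine hnotcl (!s) _ _ ?_ ((hst2 s).indep.subset ?_)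
    · rw [Finset.mem_union, Finset.mem_sdiff, Finset.mem_erase]
      have := heX s
      have := heY s
      tauto
    · rw [Finset.coe_subset]
      intro u hu
      have h1 := @hUQ u
      simp only [Finset.mem_union, Finset.mem_sdiff, Finset.mem_insert, not_or] at hu ⊢
      rcases hu with hu | hu | hu
      · exact Or.inl (Or.inl hu)
      · exact Or.inl (Or.inr hu)
      · refine Or.inr ⟨hu.1, fun h' => hu.2 (h' ▸ hzQ), fun h' => hu.2 (h1 h')⟩
  have hne : e false ≠ e true := by
    intro heq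
    exact hself true (heq ▸ hcl false)
  have hnes : ∀ s, e s ≠ e (!s) := by
    intro s
    cases s
    · exact hne
    · exact hne.symm
  -- replacing `x₀` by `e (!s)` in the matroid number `s`
  have hswap : ∀ s (W₀ : Finset α), Y \ Q ⊆ W₀ → x₀ ∉ X.erase x₀ ∪ W₀ →
      e (!s) ∉ W₀ →
      (D s).IsBase ((insert x₀ (X.erase x₀ ∪ W₀) : Finset α) : Set α) →
      (D s).IsBase ((insert (e (!s)) (X.erase x₀ ∪ W₀) : Finset α) : Set α) := by
    intro s W₀ hW₀ hx₀W heW hb
    have h1 := hcl (!s)
    have h2 := hncl (!s)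
    rw [Bool.not_not] at h1 h2
    refine swap_base (R := Y \ Q) ?_ h2 hW₀ hx₀W ?_ hb
    · rw [← Finset.coe_insert, ← Finset.insert_union, Finset.insert_erase hx₀]
      exact h1
    · rw [Finset.mem_insert, Finset.mem_union, Finset.mem_erase]
      rintro (h3 | h3 | h3)
      · exact heX (!s) (h3 ▸ hx₀)
      · exact heX (!s) h3.2
      · exact heW h3
  set X' : Finset α := insert (e false) (insert (e true) (X.erase x₀)) with hX'
  have hX's : ∀ s, X' = insert (e s) (insert (e (!s)) (X.erase x₀)) := by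
    intro s
    cases s
    · rfl
    · rw [hX', Finset.insert_comm]; rfl
  have hx₀e : ∀ s, x₀ ≠ e s := fun s h' => heX s (h' ▸ hx₀)
  -- states with the new set
  have hnew : ∀ s, ∀ V ⊆ Q, St D Y s (insert (e s) X) V → St D Y s X' V := by
    intro s V hV hst
    have h1 := hswap s (insert (e s) (Y \ V)) ?_ ?_ ?_ ?_
    · unfold St
      rw [hX's s]
      convert h1 using 2
      ext u
      simp only [Finset.mem_union, Finset.mem_insert]
      tauto
    · intro u hu
      rw [Finset.mem_sdiff] at hu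
      exact Finset.mem_insert_of_mem (Finset.mem_sdiff.mpr ⟨hu.1, fun h' => hu.2 (hV h')⟩)
    · rw [Finset.mem_union, Finset.mem_erase, Finset.mem_insert, Finset.mem_sdiff]
      have := hXY x₀ hx₀
      have := hx₀e s
      tauto
    · rw [Finset.mem_insert, Finset.mem_sdiff]
      have := heY (!s)
      have := hnes s
      tauto
    · unfold St at hst
      convert hst using 2
      rw [← Finset.insert_union, Finset.insert_erase hx₀]
      ext u
      simp only [Finset.mem_union, Finset.mem_insert]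
      tauto
  have hmid : ∀ s, ∀ V ⊆ Q, V.card = c → St D Y s (insert (e (!s)) (X.erase x₀)) V := by
    intro s V hV hVc
    have h1 := hswap s (Y \ V) ?_ ?_ ?_ ?_
    · unfold St
      rw [Finset.insert_union]
      exact h1
    · intro u hu
      rw [Finset.mem_sdiff] at hu ⊢
      exact ⟨hu.1, fun h' => hu.2 (hV h')⟩
    · rw [Finset.mem_union, Finset.mem_erase, Finset.mem_sdiff]
      have := hXY x₀ hx₀
      tauto
    · rw [Finset.mem_sdiff]
      have := heY (!s)
      tauto
    · have h2 := hG X (Finset.Subset.refl _) V hV (by omega) s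
      unfold St at h2
      rwa [← Finset.insert_union, Finset.insert_erase hx₀]
  have hX'B : X' ⊆ B := by
    intro u hu
    rw [hX', Finset.mem_insert, Finset.mem_insert] at hu
    rcases hu with rfl | rfl | hu
    · exact heB _
    · exact heB _
    · exact hX (Finset.mem_of_mem_erase hu)
  have hnot1 : e true ∉ X.erase x₀ := fun h' => heX true (Finset.mem_of_mem_erase h')
  have hnot2 : e false ∉ insert (e true) (X.erase x₀) := by
    rw [Finset.mem_insert]
    rintro (h' | h')
    · exact hne h'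
    · exact heX false (Finset.mem_of_mem_erase h')
  have hX'c : X'.card = c + 1 := by
    rw [hX', Finset.card_insert_of_notMem hnot2, Finset.card_insert_of_notMem hnot1, hXec]
    omega
  have hp : ∀ s, ∀ T' ⊆ Q, T'.card = c →
      ∃ y ∈ Q, y ∉ T' ∧ St D Y s X' (insert y (∅ ∪ T')) := by
    intro s T' hT' hT'c
    have hs1 := h.ch_st (hfl.ch T' hT' hT'c) s
    have hs2 : St D Y s (insert (e s) X) (∅ ∪ insert z T) := by
      rw [Finset.empty_union]; exact hst1 s
    obtain ⟨y, hy, hyT, -, -, h1⟩ := h.aug (heB s) (heX s) hX hs1 hs2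
    have hyQ : y ∈ Q := by
      rw [Finset.mem_insert] at hy
      rcases hy with rfl | hy
      · exact hzQ
      · exact hT hy
    refine ⟨y, hyQ, hyT, hnew s _ ?_ h1⟩
    rw [Finset.empty_union]
    exact Finset.insert_subset hyQ hT'
  have hdis : Disjoint X' Y := Finset.disjoint_of_subset_left hX'B h.disj
  have hpav : ∀ s, Pav c Q (fun J => ¬ St D Y s X' (∅ ∪ J)) := fun s =>
    h.pav (Finset.disjoint_empty_left _) hQ (hp s) hdis
  have hzTc : (insert z T).card = c + 1 := by rw [Finset.card_insert_of_notMem hzT, hTc]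
  have hzTQ : insert z T ⊆ Q := Finset.insert_subset hzQ hT
  have hJs : ∀ s, ¬ ¬ St D Y s X' (∅ ∪ insert z T) := by
    intro s hn
    apply hn
    rw [Finset.empty_union]
    exact hnew s _ hzTQ (hst1 s)
  obtain ⟨J₀, hJ₀Q, hJ₀c, hJ1, hJ2⟩ := (hpav false).cover hc (hpav true) hzTQ hzTc (hJs false)
    hzTQ hzTc (hJs true)
  have hJ₀ : ∀ s, St D Y s X' (∅ ∪ J₀) := by
    intro s
    cases s
    · exact not_not.mp hJ1
    · exact not_not.mp hJ2
  suffices hch : ∀ J ⊆ Q, J.card = c + 1 → (∀ s, St D Y s X' (∅ ∪ J)) →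
      Ch D Y (c + 1) X' (∅ ∪ J) by
    obtain ⟨F', Q', t', h1, h2⟩ := h.proc (N := N) hX'B hX'c (Finset.empty_subset _) hQ
      (Finset.disjoint_empty_left _) (by simp) hp hJ₀Q hJ₀c hJ₀ hch
      (fun f hf => absurd hf (Finset.notMem_empty _)) hcard1
    exact ⟨X', F', Q', t', h1, h2⟩
  -- the chain condition
  intro J hJQ hJc hJst
  rw [Finset.empty_union]
  have hJst' : ∀ s, St D Y s X' J := fun s => by
    have := hJst s
    rwa [Finset.empty_union] at this
  obtain ⟨T₀, hT₀J, hT₀c⟩ := Finset.exists_subset_card_eq (show c - 1 ≤ J.card by omega)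
  have hS0 := hG (X.erase x₀) (Finset.erase_subset _ _) T₀ (hT₀J.trans hJQ) (by omega) false
  obtain ⟨u, hu, hu', h3, h4⟩ := base_exch hS0 (hJst' false) (z := e true)
    (Finset.mem_union_left _ (by rw [hX']; simp))
    (by
      rw [Finset.mem_union, Finset.mem_sdiff]
      have := heY true
      tauto)
  have huX' : u ∉ X' := fun h' => hu' (Finset.mem_union_left _ h')
  have huY : u ∈ Y ∧ u ∉ T₀ := by
    rw [Finset.mem_union, Finset.mem_sdiff] at hu
    refine hu.resolve_left fun h' => huX' ?_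
    rw [hX']
    exact Finset.mem_insert_of_mem (Finset.mem_insert_of_mem h')
  have huJ : u ∈ J := by
    by_contra hcon
    exact hu' (Finset.mem_union_right _ (Finset.mem_sdiff.mpr ⟨huY.1, hcon⟩))
  have hX'e : X'.erase (e true) = insert (e false) (X.erase x₀) := by
    rw [hX', Finset.insert_comm, Finset.erase_insert]
    rw [Finset.mem_insert]
    rintro (h' | h')
    · exact hne h'.symm
    · exact hnot1 h'
  have hJu : J.erase u ⊆ Q := (Finset.erase_subset _ _).trans hJQ
  have hJuc : (J.erase u).card = c := by rw [Finset.card_erase_of_mem huJ, hJc]; omega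
  obtain ⟨c', rfl⟩ : ∃ c', c = c' + 1 := ⟨c - 1, by omega⟩
  refine ⟨hJst', e true, by rw [hX']; simp, u, huJ, ?_⟩
  rw [hX'e]
  refine ⟨fun s => ?_, e false, Finset.mem_insert_self _ _, ?_⟩
  · cases s
    · unfold St
      convert h4 using 2
      rw [← hX'e]
      ext w
      simp only [Finset.mem_union, Finset.mem_sdiff, Finset.mem_insert, Finset.mem_erase, not_and]
      constructor
      · rintro (h5 | ⟨h5, h6⟩)
        · exact Or.inr ⟨h5.1, Or.inl h5.2⟩
        · by_cases h7 : w = u
          · exact Or.inl h7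
          · exact Or.inr ⟨fun h' => heY true (h' ▸ h5), Or.inr ⟨h5, h6 h7⟩⟩
      · rintro (rfl | ⟨h5, h6 | h6⟩)
        · exact Or.inr ⟨huY.1, fun h' => absurd rfl h'⟩
        · exact Or.inl ⟨h5, h6⟩
        · exact Or.inr ⟨h6.1, fun _ => h6.2⟩
    · exact hmid true _ hJu hJuc
  · obtain ⟨v, hv⟩ : (J.erase u).Nonempty := by rw [← Finset.card_pos]; omega
    refine ⟨v, hv, ?_⟩
    rw [Finset.erase_insert (fun h' => heX false (Finset.mem_of_mem_erase h'))]
    refine hG.ch c' _ (Finset.erase_subset _ _) _ ((Finset.erase_subset _ _).trans hJu) ?_ ?_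
    · omega
    · rw [Finset.card_erase_of_mem hv, hJuc]; omega

/-- size needed for a step -/
def _root_.Pool.Agent.Gabow87.stepN (c N : ℕ) : ℕ :=
  (∑ t ∈ Finset.range (c + 1), gN t N) +
    ((gN c N + 2 * c) + (2 ^ c * (2 ^ (gN c N + 2 * c) * 2)) * (2 * c) + 1) + 1

theorem step (h : MSys D B Y) {X F Q : Finset α} {t c N : ℕ} (hf : Flex D B Y X F Q t c)
    (hQ : stepN c N ≤ Q.card) :
    ∃ X' F' Q' t', Q'.card = N ∧ Flex D B Y X' F' Q' t' (c + 1) := by
  have htc : t ≤ c := by have := hf.hc; omega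
  have hg : gN t N ≤ ∑ t ∈ Finset.range (c + 1), gN t N :=
    Finset.single_le_sum (f := fun t => gN t N) (fun _ _ => Nat.zero_le _)
      (Finset.mem_range.mpr (by omega))
  unfold stepN at hQ
  rcases Nat.eq_zero_or_pos t with ht | ht
  · -- `t = 0`
    subst ht
    obtain ⟨z, hz⟩ : Q.Nonempty := by rw [← Finset.card_pos]; omega
    have hzY := hf.hQ hz
    have hzF : z ∉ F := fun h' => Finset.disjoint_left.mp hf.hd h' hz
    have hS := fun s => h.ch_st (hf.ch ∅ (Finset.empty_subset _) rfl) s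
    simp only [Finset.union_empty] at hS
    obtain ⟨e, heBY, he1, -, he3, he4⟩ := h.orth false _ _ (hS false) (hS true) z hzY
      (Finset.mem_union_right _ (Finset.mem_sdiff.mpr ⟨hzY, hzF⟩))
      (Finset.mem_union_right _ (Finset.mem_sdiff.mpr ⟨hzY, hzF⟩))
    have heX : e ∉ X := fun h' => he1 (Finset.mem_union_left _ h')
    have hzX : z ∉ X := fun h' => h.notMem_Y (hf.hX h') hzY
    have heY : e ∉ Y := by
      intro heY
      have heF : e ∈ F := by
        by_contra hcon
        exact he1 (Finset.mem_union_right _ (Finset.mem_sdiff.mpr ⟨heY, hcon⟩))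
      obtain ⟨s, hs⟩ := hf.inv e heF
      apply hs {z} (Finset.singleton_subset_iff.mpr hz) (by rw [Finset.card_singleton])
      have hset : insert e ((X ∪ (Y \ F)).erase z) = X ∪ (Y \ ((F.erase e) ∪ {z})) := by
        ext u
        simp only [Finset.mem_union, Finset.mem_sdiff, Finset.mem_insert, Finset.mem_erase,
          Finset.mem_singleton, not_or, not_and]
        constructor
        · rintro (rfl | ⟨h5, h6 | h6⟩)
          · exact Or.inr ⟨heY, fun h' => absurd rfl h', fun h' => hzF (h' ▸ heF)⟩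
          · exact Or.inl h6
          · exact Or.inr ⟨h6.1, fun _ => h6.2, h5⟩
        · rintro (h5 | ⟨h5, h6, h7⟩)
          · exact Or.inr ⟨fun h' => hzX (h' ▸ h5), Or.inl h5⟩
          · by_cases h8 : u = e
            · exact Or.inl h8
            · exact Or.inr ⟨h7, Or.inr ⟨h5, h6 h8⟩⟩
      unfold St
      rw [← hset]
      cases s
      · exact he3
      · exact he4
    have heB : e ∈ B := (Finset.mem_union.mp heBY).resolve_right heY
    have hset : insert e ((X ∪ (Y \ F)).erase z) = insert e X ∪ (Y \ (F ∪ {z})) := by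
      ext u
      simp only [Finset.mem_union, Finset.mem_sdiff, Finset.mem_insert, Finset.mem_erase,
        Finset.mem_singleton, not_or]
      constructor
      · rintro (h5 | ⟨h5, h6 | h6⟩)
        · exact Or.inl (Or.inl h5)
        · exact Or.inl (Or.inr h6)
        · exact Or.inr ⟨h6.1, h6.2, h5⟩
      · rintro ((h5 | h5) | ⟨h5, h6, h7⟩)
        · exact Or.inl h5
        · exact Or.inr ⟨fun h' => hzX (h' ▸ h5), Or.inl h5⟩
        · exact Or.inr ⟨h7, Or.inr ⟨h5, h6⟩⟩
    obtain ⟨F', Q', t', h1, h2⟩ := h.extend (N := N) hf heB heX (J₀ := {z})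
      (Finset.singleton_subset_iff.mpr hz) (Finset.card_singleton _) (fun s => by
        unfold St
        rw [← hset]
        cases s
        · exact he3
        · exact he4) (by omega)
    exact ⟨_, F', Q', t', h1, h2⟩
  · by_cases hext : ∃ x ∈ B, x ∉ X ∧ ∃ J ⊆ Q, J.card = t + 1 ∧
      ∀ s, St D Y s (insert x X) (F ∪ J)
    · obtain ⟨x, hx, hxX, J, hJ, hJc, hJst⟩ := hext
      obtain ⟨F', Q', t', h1, h2⟩ := h.extend (N := N) hf hx hxX hJ hJc hJst (by omega)
      exact ⟨_, F', Q', t', h1, h2⟩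
    · push Not at hext
      have hno : ∀ x ∈ B, x ∉ X → ∀ J ⊆ Q, J.card = t + 1 →
          ¬ ∀ s, St D Y s (insert x X) (F ∪ J) := by
        intro x hx hxX J hJ hJc hall
        obtain ⟨s, hs⟩ := hext x hx hxX J hJ hJc
        exact hs (hall s)
      obtain ⟨G, hGQ, hGc, hG⟩ := h.exists_gen (m := 2 * c) (N := gN c N + 2 * c) hf.hX hf.hQ
        (fun s Q' hQ' hc' => h.indep_of_stuck hf ht hno s hQ' (by omega))
        (by rw [hf.hXc]; omega)
      have hGY := hGQ.trans hf.hQ
      have hfl : Flex D B Y X ∅ G c c := by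
        have := hG.flex hf.hX hGY
        rwa [hf.hXc] at this
      by_cases hext2 : ∃ x ∈ B, x ∉ X ∧ ∃ J ⊆ G, J.card = c + 1 ∧
        ∀ s, St D Y s (insert x X) (∅ ∪ J)
      · obtain ⟨x, hx, hxX, J, hJ, hJc, hJst⟩ := hext2
        obtain ⟨F', Q', t', h1, h2⟩ := h.extend (N := N) hfl hx hxX hJ hJc hJst (by omega)
        exact ⟨_, F', Q', t', h1, h2⟩
      · push Not at hext2
        refine h.gen_stuck hf.hX hf.hXc (by omega) hGY hG (by omega) (by omega) ?_
        intro x hx hxX J hJ hJc hall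
        obtain ⟨s, hs⟩ := hext2 x hx hxX J hJ hJc
        exact hs (hall s)

/-- size needed for chains of length `k` -/
def _root_.Pool.Agent.Gabow87.rN : ℕ → ℕ → ℕ
  | 0, N => N
  | k + 1, N => rN k (stepN k N)

theorem exists_flex (h : MSys D B Y) : ∀ (k N : ℕ), rN k N ≤ Y.card →
    ∃ X F Q t, N ≤ Q.card ∧ Flex D B Y X F Q t k := by
  intro k
  induction k with
  | zero =>
    intro N hN
    refine ⟨∅, ∅, Y, 0, hN, Finset.empty_subset _, Finset.empty_subset _, Finset.Subset.refl _,
      Finset.disjoint_empty_left _, rfl, rfl, fun T _ hT => ?_,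
      fun f hf => absurd hf (Finset.notMem_empty _)⟩
    rw [Finset.card_eq_zero.mp hT]
    exact ⟨rfl, rfl⟩
  | succ k ih =>
    intro N hN
    obtain ⟨X, F, Q, t, hQ, hf⟩ := ih (stepN k N) hN
    obtain ⟨X', F', Q', t', h1, h2⟩ := h.step hf hQ
    exact ⟨X', F', Q', t', h1.ge, h2⟩

/-- **Long chains.** -/
theorem exists_chain (h : MSys D B Y) (k : ℕ) (hk : rN k k ≤ Y.card) :
    ∃ X ⊆ B, ∃ V ⊆ Y, X.card = k ∧ V.card = k ∧ Ch D Y k X V := by
  obtain ⟨X, F, Q, t, hQ, hf⟩ := h.exists_flex k k hk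
  obtain ⟨T, hT, hTc⟩ := Finset.exists_subset_card_eq
    (show t ≤ Q.card by have := hf.hc; omega)
  have hFT : Disjoint F T := Finset.disjoint_of_subset_right hT hf.hd
  refine ⟨X, hf.hX, F ∪ T, Finset.union_subset hf.hF (hT.trans hf.hQ), hf.hXc, ?_,
    hf.ch T hT hTc⟩
  rw [Finset.card_union_of_disjoint hFT, hTc, hf.hc]

end MSys

end Pool.Agent.Gabow87
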