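import Pool.Agent.Gabow87.R.Sys

/-!
# Flexible families without extension
-/

set_option autoImplicit false

namespace Pool.Agent.Gabow87

variable {α : Type*} [DecidableEq α]

theorem bool_eq_not : ∀ {a b : Bool}, a ≠ b → a = !b := by decide

/-- an independent set is contained in a base, all of whose further elements are in a given base -/
theorem exists_base {M : Matroid α} {I S : Finset α} (hI : M.Indep (I : Set α))
    (hS : M.IsBase (S : Set α)) :
    ∃ W : Finset α, M.IsBase (W : Set α) ∧ I ⊆ W ∧ W ⊆ I ∪ S := by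
  obtain ⟨W, hW, h1, h2⟩ := hI.exists_isBase_subset_union_isBase hS
  have hfin : W.Finite := Set.Finite.subset (I ∪ S).finite_toSet (by rw [Finset.coe_union]; exact h2)
  refine ⟨hfin.toFinset, by rw [hfin.coe_toFinset]; exact hW, ?_, ?_⟩
  · intro x hx
    rw [Set.Finite.mem_toFinset]
    exact h1 hx
  · intro x hx
    rw [Set.Finite.mem_toFinset] at hx
    rw [Finset.mem_union]
    exact h2 hx

namespace MSys

variable {D : Bool → Matroid α} {B Y : Finset α}

/-- dichotomy for the elements of `B` -/
theorem dicho (h : MSys D B Y) {X F Q : Finset α} {t c : ℕ} (hf : Flex D B Y X F Q t c)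
    (ht : 1 ≤ t) (hno : ∀ x ∈ B, x ∉ X → ∀ J ⊆ Q, J.card = t + 1 →
      ¬ ∀ s, St D Y s (insert x X) (F ∪ J)) {e : α} (he : e ∈ B) (heX : e ∉ X)
    (hJ : ∀ s, ∃ J ⊆ Q, J.card = t + 1 ∧ St D Y s (insert e X) (F ∪ J)) : False := by
  choose J hJQ hJc hJst using hJ
  have hdis : Disjoint (insert e X) Y :=
    Finset.disjoint_of_subset_left (Finset.insert_subset he hf.hX) h.disj
  have hp : ∀ s, Pav t Q (fun J => ¬ St D Y s (insert e X) (F ∪ J)) := by
    intro s
    refine h.pav hf.hd hf.hQ (fun T hT hTc => ?_) hdis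
    obtain ⟨y, hy, hyT, -, -, h1⟩ := h.aug he heX hf.hX (h.ch_st (hf.ch T hT hTc) s) (hJst s)
    exact ⟨y, hJQ s hy, hyT, h1⟩
  obtain ⟨J', hJ'Q, hJ'c, h1, h2⟩ := (hp false).cover ht (hp true) (hJQ false) (hJc false)
    (fun hn => hn (hJst false)) (hJQ true) (hJc true) (fun hn => hn (hJst true))
  refine hno e he heX J' hJ'Q hJ'c fun s => ?_
  cases s
  · exact not_not.mp h1
  · exact not_not.mp h2

/-- From an element outside of the closure of `X ∪ (Y \ (F ∪ Q))` to a set `J`. -/
theorem exists_J (h : MSys D B Y) {X F Q : Finset α} {t c : ℕ} (hf : Flex D B Y X F Q t c)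
    (htQ : t ≤ Q.card) {s : Bool} {e : α} (he : e ∈ B) (heX : e ∉ X)
    (hcl : e ∉ (D s).closure ((X ∪ (Y \ (F ∪ Q)) : Finset α) : Set α)) :
    ∃ J ⊆ Q, J.card = t + 1 ∧ St D Y s (insert e X) (F ∪ J) := by
  obtain ⟨T, hT, hTc⟩ := Finset.exists_subset_card_eq htQ
  have hS := h.ch_st (hf.ch T hT hTc) s
  have heY := h.notMem_Y he
  have hIind : (D s).Indep ((X ∪ (Y \ (F ∪ Q)) : Finset α) : Set α) := by
    refine hS.indep.subset ?_
    rw [Finset.coe_subset]
    intro x hx
    rw [Finset.mem_union, Finset.mem_sdiff, Finset.mem_union, not_or] at hx ⊢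
    rcases hx with hx | hx
    · exact Or.inl hx
    · exact Or.inr ⟨hx.1, hx.2.1, fun h'' => hx.2.2 (hT h'')⟩
  have heE : e ∈ (D s).E := by
    rw [h.ground s]
    exact Finset.mem_coe.mpr (Finset.mem_union_left _ he)
  have hind : (D s).Indep ((insert e (X ∪ (Y \ (F ∪ Q))) : Finset α) : Set α) := by
    rw [Finset.coe_insert]
    exact ((hIind.notMem_closure_iff heE).mp hcl).1
  obtain ⟨W, hW, hIW, hWS⟩ := exists_base hind hS
  refine ⟨Q \ W, Finset.sdiff_subset, ?_, ?_⟩
  · have hst : St D Y s (insert e X) (F ∪ (Q \ W)) := by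
      unfold St
      convert hW using 2
      ext u
      constructor
      · intro hu
        by_contra huW
        have h1 : u ∉ insert e (X ∪ (Y \ (F ∪ Q))) := fun h' => huW (hIW h')
        simp only [Finset.mem_union, Finset.mem_sdiff, Finset.mem_insert, not_or, not_and,
          not_not] at hu h1
        tauto
      · intro hu
        have h1 := hWS hu
        have h2 := @hT u
        have h3 := @hf.hX u
        simp only [Finset.mem_union, Finset.mem_sdiff, Finset.mem_insert, not_or, not_and,
          not_not] at h1 ⊢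
        tauto
    have hcard := h.st_card (Finset.insert_subset he hf.hX)
      (Finset.union_subset hf.hF (Finset.sdiff_subset.trans hf.hQ)) hst
    rw [Finset.card_insert_of_notMem heX, hf.hXc, Finset.card_union_of_disjoint
      (Finset.disjoint_of_subset_right Finset.sdiff_subset hf.hd)] at hcard
    have := hf.hc
    omega
  · unfold St
    convert hW using 2
    ext u
    constructor
    · intro hu
      by_contra huW
      have h1 : u ∉ insert e (X ∪ (Y \ (F ∪ Q))) := fun h' => huW (hIW h')
      simp only [Finset.mem_union, Finset.mem_sdiff, Finset.mem_insert, not_or, not_and,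
        not_not] at hu h1
      tauto
    · intro hu
      have h1 := hWS hu
      have h2 := @hT u
      have h3 := @hf.hX u
      simp only [Finset.mem_union, Finset.mem_sdiff, Finset.mem_insert, not_or, not_and,
        not_not] at h1 ⊢
      tauto

/-- Without extension, `X` is independent modulo the complement of every large subset of `Q`. -/
theorem indep_of_stuck (h : MSys D B Y) {X F Q : Finset α} {t c : ℕ}
    (hf : Flex D B Y X F Q t c) (ht : 1 ≤ t)
    (hno : ∀ x ∈ B, x ∉ X → ∀ J ⊆ Q, J.card = t + 1 → ¬ ∀ s, St D Y s (insert x X) (F ∪ J))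
    (s : Bool) {Q' : Finset α} (hQ' : Q' ⊆ Q) (hc : c + t ≤ Q'.card) :
    (D s).Indep ((X ∪ (Y \ Q') : Finset α) : Set α) := by
  by_contra hdep
  have hQY := hf.hQ
  have hYind : (D s).Indep ((Y \ Q' : Finset α) : Set α) :=
    (h.base s).indep.subset (by rw [Finset.coe_subset]; exact Finset.sdiff_subset)
  have hsubE : ((X ∪ (Y \ Q') : Finset α) : Set α) ⊆ (D s).E := by
    rw [h.ground s, Finset.coe_subset]
    exact Finset.union_subset_union hf.hX Finset.sdiff_subset
  obtain ⟨J, hJ, hYJ⟩ := hYind.subset_isBasis_of_subset (X := ((X ∪ (Y \ Q') : Finset α) : Set α))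
    (by rw [Finset.coe_subset]; exact Finset.subset_union_right) hsubE
  have hJfin : J.Finite := Set.Finite.subset (X ∪ (Y \ Q')).finite_toSet hJ.subset
  set J' := hJfin.toFinset with hJ'
  have hJ'c : (J' : Set α) = J := hJfin.coe_toFinset
  have hJ'sub : J' ⊆ X ∪ (Y \ Q') := by
    intro x hx
    have : x ∈ J := (Set.Finite.mem_toFinset _).mp hx
    exact Finset.mem_coe.mp (hJ.subset this)
  have hYJ' : Y \ Q' ⊆ J' := fun x hx => (Set.Finite.mem_toFinset _).mpr (hYJ (Finset.mem_coe.mpr hx))
  have hXJ' : ¬ X ⊆ J' := by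
    intro hX
    apply hdep
    refine hJ.indep.subset ?_
    rw [← hJ'c, Finset.coe_subset]
    exact Finset.union_subset hX hYJ'
  obtain ⟨W, hW, hJW, hWJ⟩ := exists_base (S := Y) (by rw [hJ'c]; exact hJ.indep) (h.base s)
  -- `W = X₂ ∪ (Y \ U)`
  set X₂ := X ∩ J' with hX₂
  set U := Y \ W with hU
  have hUQ : U ⊆ Q' := by
    intro u hu
    rw [hU, Finset.mem_sdiff] at hu
    by_contra hc
    exact hu.2 (hJW (hYJ' (Finset.mem_sdiff.mpr ⟨hu.1, hc⟩)))
  have hXY : ∀ x ∈ X, x ∉ Y := fun x hx => h.notMem_Y (hf.hX hx)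
  have hWeq : W = X₂ ∪ (Y \ U) := by
    ext u
    have h1 := @hWJ u
    have h2 := @hJ'sub u
    have h3 := @hJW u
    have h4 := hXY u
    simp only [hX₂, hU, Finset.mem_union, Finset.mem_sdiff, Finset.mem_inter] at h1 h2 ⊢
    tauto
  have hX₂c : X₂.card < c := by
    rw [← hf.hXc]
    refine Finset.card_lt_card ⟨Finset.inter_subset_left, fun h' => hXJ' ?_⟩
    exact h'.trans Finset.inter_subset_right
  have hUc : X₂.card = U.card := by
    refine h.st_card (s := s) (Finset.inter_subset_left.trans hf.hX) Finset.sdiff_subset ?_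
    unfold St
    rw [← hWeq]
    exact hW
  have hsd := Finset.card_sdiff_of_subset hUQ
  obtain ⟨R, hR, hRc⟩ := Finset.exists_subset_card_eq (show t + 1 ≤ (Q' \ U).card by omega)
  obtain ⟨z, hz⟩ : R.Nonempty := by rw [← Finset.card_pos]; omega
  set T := R.erase z with hT
  have hTc : T.card = t := by rw [hT, Finset.card_erase_of_mem hz, hRc]; omega
  have hRQ' : ∀ u ∈ R, u ∈ Q' ∧ u ∉ U := fun u hu => Finset.mem_sdiff.mp (hR hu)
  have hTQ : T ⊆ Q := fun u hu => hQ' (hRQ' u (Finset.mem_of_mem_erase hu)).1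
  have hzQ' := (hRQ' z hz).1
  have hzU := (hRQ' z hz).2
  have hzY : z ∈ Y := hQY (hQ' hzQ')
  have hzF : z ∉ F := fun h' => Finset.disjoint_left.mp hf.hd h' (hQ' hzQ')
  have hzT : z ∉ T := Finset.notMem_erase _ _
  have hS := h.ch_st (hf.ch T hTQ hTc) (!s)
  obtain ⟨e, heBY, he1, he2, he3, he4⟩ := h.orth s W (X ∪ (Y \ (F ∪ T))) hW hS z hzY
    (by rw [hWeq, Finset.mem_union, Finset.mem_sdiff]; exact Or.inr ⟨hzY, hzU⟩)
    (by
      rw [Finset.mem_union, Finset.mem_sdiff, Finset.mem_union, not_or]
      exact Or.inr ⟨hzY, hzF, hzT⟩)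
  have heX : e ∉ X := fun h' => he2 (Finset.mem_union_left _ h')
  have heY : e ∉ Y := by
    intro heY
    have h1 : e ∈ U := by
      by_contra hc
      exact he1 (by rw [hWeq]; exact Finset.mem_union_right _ (Finset.mem_sdiff.mpr ⟨heY, hc⟩))
    have h2 : e ∈ F ∪ T := by
      by_contra hc
      exact he2 (Finset.mem_union_right _ (Finset.mem_sdiff.mpr ⟨heY, hc⟩))
    rcases Finset.mem_union.mp h2 with h3 | h3
    · exact Finset.disjoint_left.mp hf.hd h3 (hQ' (hUQ h1))
    · exact (hRQ' e (Finset.mem_of_mem_erase h3)).2 h1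
  have heB : e ∈ B := (Finset.mem_union.mp heBY).resolve_right heY
  have hzX : z ∉ X := fun h' => hXY z h' hzY
  refine h.dicho hf ht hno heB heX fun s' => ?_
  by_cases hs' : s' = s
  · subst hs'
    refine h.exists_J hf ?_ heB heX ?_
    · have := Finset.card_le_card hQ'
      omega
    · -- closure argument
      have heW : e ∉ (D s').closure ((W.erase z : Finset α) : Set α) := by
        have h1 := he3.indep.notMem_closure_sdiff_of_mem (e := e)
          (Finset.mem_coe.mpr (Finset.mem_insert_self _ _))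
        have h2 : (((insert e (W.erase z) : Finset α) : Set α) \ {e}) =
            ((W.erase z : Finset α) : Set α) := by
          rw [Finset.coe_insert, Set.insert_sdiff_of_mem _ (Set.mem_singleton _),
            Set.sdiff_singleton_eq_self]
          rw [Finset.mem_coe]
          exact fun h' => he1 (Finset.mem_of_mem_erase h')
        rwa [h2] at h1
      intro hcl
      apply heW
      have hJ'W : J' ⊆ W.erase z := by
        intro u hu
        rw [Finset.mem_erase]
        refine ⟨?_, hJW hu⟩
        rintro rfl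
        have := hJ'sub hu
        rw [Finset.mem_union, Finset.mem_sdiff] at this
        rcases this with h1 | h1
        · exact hzX h1
        · exact h1.2 hzQ'
      have hsub : ((X ∪ (Y \ (F ∪ Q)) : Finset α) : Set α) ⊆
          (D s').closure ((W.erase z : Finset α) : Set α) := by
        intro u hu
        rw [Finset.mem_coe, Finset.mem_union, Finset.mem_sdiff, Finset.mem_union, not_or] at hu
        have h1 : u ∈ (D s').closure J := by
          refine hJ.subset_closure ?_
          rw [Finset.mem_coe, Finset.mem_union, Finset.mem_sdiff]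
          rcases hu with hu | hu
          · exact Or.inl hu
          · exact Or.inr ⟨hu.1, fun h' => hu.2.2 (hQ' h')⟩
        rw [← hJ'c] at h1
        exact (D s').closure_subset_closure (Finset.coe_subset.mpr hJ'W) h1
      exact (D s').closure_subset_closure_of_subset_closure hsub hcl
  · have hs'' : s' = !s := bool_eq_not hs'
    subst hs''
    refine ⟨insert z T, ?_, ?_, ?_⟩
    · exact Finset.insert_subset (hQ' hzQ') hTQ
    · rw [Finset.card_insert_of_notMem hzT, hTc]
    · unfold St
      convert he4 using 2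
      ext u
      simp only [Finset.mem_union, Finset.mem_sdiff, Finset.mem_insert, Finset.mem_erase, not_or]
      constructor
      · rintro ((h5 | h5) | ⟨h5, h6, h7, h8⟩)
        · exact Or.inl h5
        · exact Or.inr ⟨fun h' => hzX (h' ▸ h5), Or.inl h5⟩
        · exact Or.inr ⟨h7, Or.inr ⟨h5, h6, h8⟩⟩
      · rintro (h5 | ⟨h5, h6 | ⟨h6, h7, h8⟩⟩)
        · exact Or.inl (Or.inl h5)
        · exact Or.inl (Or.inr h6)
        · exact Or.inr ⟨h6, h7, h5, h8⟩

end MSys

end Pool.Agent.Gabow87
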