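import Pool.Agent.Gabow87.R.Pair2
import Pool.Agent.Gabow87.Exch

/-!
# Pairs of matroids with orthogonal cocircuits, states, chains, flexible families
-/

set_option autoImplicit false

namespace Pool.Agent.Gabow87

variable {α : Type*} [DecidableEq α]

/-- Two matroids on `B ∪ Y` with a common base `Y`, such that no element of `Y` is the only common
element of a cocircuit of the first and a cocircuit of the second matroid. -/
structure MSys (D : Bool → Matroid α) (B Y : Finset α) : Prop where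
  ground : ∀ s, (D s).E = ((B ∪ Y : Finset α) : Set α)
  disj : Disjoint B Y
  base : ∀ s, (D s).IsBase (Y : Set α)
  orth : ∀ s (S T : Finset α), (D s).IsBase (S : Set α) → (D (!s)).IsBase (T : Set α) →
    ∀ z ∈ Y, z ∈ S → z ∈ T → ∃ e ∈ B ∪ Y, e ∉ S ∧ e ∉ T ∧
      (D s).IsBase ((insert e (S.erase z) : Finset α) : Set α) ∧
      (D (!s)).IsBase ((insert e (T.erase z) : Finset α) : Set α)

/-- `X` exchanged for `V` -/
def St (D : Bool → Matroid α) (Y : Finset α) (s : Bool) (X V : Finset α) : Prop :=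
  (D s).IsBase ((X ∪ (Y \ V) : Finset α) : Set α)

/-- `(X, V)` is the end of a chain of common bases -/
def Ch (D : Bool → Matroid α) (Y : Finset α) : ℕ → Finset α → Finset α → Prop
  | 0, X, V => X = ∅ ∧ V = ∅
  | n + 1, X, V => (∀ s, St D Y s X V) ∧ ∃ x ∈ X, ∃ v ∈ V, Ch D Y n (X.erase x) (V.erase v)

/-- the exchange property for finite sets -/
theorem base_exch {M : Matroid α} {S T : Finset α} (hS : M.IsBase (S : Set α))
    (hT : M.IsBase (T : Set α)) {z : α} (hz : z ∈ T) (hz' : z ∉ S) :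
    ∃ e ∈ S, e ∉ T ∧ M.IsBase ((insert z (S.erase e) : Finset α) : Set α) ∧
      M.IsBase ((insert e (T.erase z) : Finset α) : Set α) := by
  obtain ⟨e, he, he', h1, h2⟩ := symm_exchange hS hT (z := z) hz hz'
  refine ⟨e, he, he', ?_, ?_⟩
  · rw [Finset.coe_insert, Finset.coe_erase]; exact h1
  · rw [Finset.coe_insert, Finset.coe_erase]; exact h2

omit [DecidableEq α] in
theorem base_card {M : Matroid α} {S T : Finset α} (hS : M.IsBase (S : Set α))
    (hT : M.IsBase (T : Set α)) : S.card = T.card := by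
  have := hS.ncard_eq_ncard_of_isBase hT
  rwa [Set.ncard_coe_finset, Set.ncard_coe_finset] at this

namespace MSys

variable {D : Bool → Matroid α} {B Y : Finset α}

theorem st_empty (h : MSys D B Y) (s : Bool) : St D Y s ∅ ∅ := by
  have := h.base s
  unfold St
  rwa [Finset.sdiff_empty, Finset.empty_union]

theorem notMem_Y (h : MSys D B Y) {x : α} (hx : x ∈ B) : x ∉ Y :=
  Finset.disjoint_left.mp h.disj hx

theorem st_card (h : MSys D B Y) {s : Bool} {X V : Finset α} (hX : X ⊆ B) (hV : V ⊆ Y)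
    (hSt : St D Y s X V) : X.card = V.card := by
  have h1 := base_card hSt (h.base s)
  have h2 : Disjoint X (Y \ V) :=
    Finset.disjoint_of_subset_left hX (Finset.disjoint_of_subset_right Finset.sdiff_subset h.disj)
  rw [Finset.card_union_of_disjoint h2, Finset.card_sdiff_of_subset hV] at h1
  have h3 := Finset.card_le_card hV
  omega

theorem ch_st (h : MSys D B Y) {c : ℕ} {X V : Finset α} (hc : Ch D Y c X V) (s : Bool) :
    St D Y s X V := by
  cases c with
  | zero => obtain ⟨rfl, rfl⟩ := hc; exact h.st_empty s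
  | succ n => exact hc.1 s

/-- augmentation of a state -/
theorem aug (h : MSys D B Y) {s : Bool} {X F T J : Finset α} {x : α} (hx : x ∈ B)
    (hxX : x ∉ X) (hX : X ⊆ B) (h1 : St D Y s X (F ∪ T)) (h2 : St D Y s (insert x X) (F ∪ J)) :
    ∃ y ∈ J, y ∉ T ∧ y ∉ F ∧ y ∈ Y ∧ St D Y s (insert x X) (insert y (F ∪ T)) := by
  have hxY := h.notMem_Y hx
  have hxS : x ∉ X ∪ (Y \ (F ∪ T)) := by
    rw [Finset.mem_union, Finset.mem_sdiff]
    tauto
  obtain ⟨e, he, he', h3, -⟩ := base_exch h1 h2 (z := x)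
    (Finset.mem_union_left _ (Finset.mem_insert_self _ _)) hxS
  simp only [Finset.mem_union, Finset.mem_sdiff, Finset.mem_insert, not_or, not_and,
    not_not] at he he'
  have heX : e ∉ X := he'.1.2
  have he2 := he.resolve_left heX
  have heJ : e ∈ J := he'.2 he2.1 he2.2.1
  refine ⟨e, heJ, he2.2.2, he2.2.1, he2.1, ?_⟩
  unfold St
  convert h3 using 2
  ext u
  simp only [Finset.mem_union, Finset.mem_sdiff, Finset.mem_insert, Finset.mem_erase, not_or]
  constructor
  · rintro ((h4 | h4) | h4)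
    · exact Or.inl h4
    · exact Or.inr ⟨fun h5 => heX (h5 ▸ h4), Or.inl h4⟩
    · exact Or.inr ⟨h4.2.1, Or.inr ⟨h4.1, h4.2.2⟩⟩
  · rintro (h4 | ⟨h4, h5 | h5⟩)
    · exact Or.inl (Or.inl h4)
    · exact Or.inl (Or.inr h5)
    · exact Or.inr ⟨h5.1, h4, h5.2⟩

/-- The sets `J` for which `(X, F ∪ J)` is not a state form a paving system. -/
theorem pav (_h : MSys D B Y) {s : Bool} {X F Q : Finset α} {t : ℕ}
    (hd : Disjoint F Q) (hQ : Q ⊆ Y)
    (hp : ∀ T ⊆ Q, T.card = t → ∃ y ∈ Q, y ∉ T ∧ St D Y s X (insert y (F ∪ T)))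
    (hX : Disjoint X Y) :
    Pav t Q (fun J => ¬ St D Y s X (F ∪ J)) := by
  intro U hU hUc a ha b hb hab hDa hDb c hc hDc
  have hUF : ∀ u ∈ U, u ∉ F := fun u hu hu' => Finset.disjoint_left.mp hd hu' (hU hu)
  have hUY : ∀ u ∈ U, u ∈ Y := fun u hu => hQ (hU hu)
  have hXU : ∀ u ∈ Y, u ∉ X := fun u hu hu' => Finset.disjoint_left.mp hX hu' hu
  by_cases hca : c = a
  · exact hDa (hca ▸ hDc)
  by_cases hcb : c = b
  · exact hDb (hcb ▸ hDc)
  obtain ⟨y, hyQ, hyT, hy⟩ := hp ((U.erase a).erase b)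
    ((Finset.erase_subset _ _).trans ((Finset.erase_subset _ _).trans hU)) (by
      rw [Finset.card_erase_of_mem (Finset.mem_erase.mpr ⟨hab.symm, hb⟩),
        Finset.card_erase_of_mem ha, hUc]
      omega)
  set T := (U.erase a).erase b with hT
  have hTa : insert a T = U.erase b := by
    ext u
    simp only [hT, Finset.mem_insert, Finset.mem_erase]
    constructor
    · rintro (rfl | h1)
      · exact ⟨hab, ha⟩
      · exact ⟨h1.1, h1.2.2⟩
    · rintro ⟨h1, h2⟩
      by_cases h3 : u = a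
      · exact Or.inl h3
      · exact Or.inr ⟨h1, h3, h2⟩
  have hTb : insert b T = U.erase a := by
    ext u
    simp only [hT, Finset.mem_insert, Finset.mem_erase]
    constructor
    · rintro (rfl | h1)
      · exact ⟨hab.symm, hb⟩
      · exact ⟨h1.2.1, h1.2.2⟩
    · rintro ⟨h1, h2⟩
      by_cases h3 : u = b
      · exact Or.inl h3
      · exact Or.inr ⟨h3, h1, h2⟩
  have hya : y ≠ a := by
    rintro rfl
    apply hDb
    rw [← hTa, Finset.union_insert]
    exact hy
  have hyb : y ≠ b := by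
    rintro rfl
    apply hDa
    rw [← hTb, Finset.union_insert]
    exact hy
  have hyF : y ∉ F := fun h' => Finset.disjoint_left.mp hd h' hyQ
  have hyUc : y ∉ U.erase c := by
    intro h'
    rw [Finset.mem_erase] at h'
    exact hyT (Finset.mem_erase.mpr ⟨hyb, Finset.mem_erase.mpr ⟨hya, h'.2⟩⟩)
  obtain ⟨e, he, he', h3, -⟩ := base_exch hy hDc (z := y)
    (Finset.mem_union_right _ (Finset.mem_sdiff.mpr ⟨hQ hyQ, by
      rw [Finset.mem_union, not_or]; exact ⟨hyF, hyUc⟩⟩))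
    (by
      rw [Finset.mem_union, Finset.mem_sdiff, not_or]
      exact ⟨hXU y (hQ hyQ), fun h' => h'.2 (Finset.mem_insert_self _ _)⟩)
  simp only [Finset.mem_union, Finset.mem_sdiff, Finset.mem_insert, not_or, not_and,
    not_not] at he he'
  have heX := he'.1
  have he2 := he.resolve_left heX
  have heU : e ∈ U.erase c := he'.2 he2.1 he2.2.2.1
  have heab : e = a ∨ e = b := by
    by_contra hcon
    rw [not_or] at hcon
    exact he2.2.2.2 (Finset.mem_erase.mpr ⟨hcon.2, Finset.mem_erase.mpr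
      ⟨hcon.1, (Finset.mem_erase.mp heU).2⟩⟩)
  have h4 : St D Y s X (F ∪ insert e T) := by
    unfold St
    convert h3 using 2
    ext u
    simp only [Finset.mem_union, Finset.mem_sdiff, Finset.mem_insert, Finset.mem_erase, not_or]
    constructor
    · rintro (h5 | ⟨h5, h6, h7, h8⟩)
      · exact Or.inr ⟨fun h' => heX (h' ▸ h5), Or.inl h5⟩
      · by_cases h9 : u = y
        · exact Or.inl h9
        · exact Or.inr ⟨h7, Or.inr ⟨h5, h9, h6, h8⟩⟩
    · rintro (rfl | ⟨h5, h6 | ⟨h6, h7, h8, h9⟩⟩)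
      · exact Or.inr ⟨hQ hyQ, hyF, fun h' => he2.2.1 h'.symm, hyT⟩
      · exact Or.inl h6
      · exact Or.inr ⟨h6, h8, h5, h9⟩
  rcases heab with rfl | rfl
  · rw [hTa] at h4; exact hDb h4
  · rw [hTb] at h4; exact hDa h4

end MSys

/-- A flexible family of chains: the exchanged elements of `Y` are `F` and any `t` elements of
`Q`. -/
structure Flex (D : Bool → Matroid α) (B Y X F Q : Finset α) (t c : ℕ) : Prop where
  hX : X ⊆ B
  hF : F ⊆ Y
  hQ : Q ⊆ Y
  hd : Disjoint F Q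
  hXc : X.card = c
  hc : F.card + t = c
  ch : ∀ T ⊆ Q, T.card = t → Ch D Y c X (F ∪ T)
  inv : ∀ f ∈ F, ∃ s, ∀ T ⊆ Q, T.card = t + 1 → ¬ St D Y s X ((F.erase f) ∪ T)

namespace MSys

variable {D : Bool → Matroid α} {B Y : Finset α}

/-- processing an extension -/
theorem proc (h : MSys D B Y) {X' F Q : Finset α} {t c N : ℕ} (hX' : X' ⊆ B)
    (hXc : X'.card = c + 1) (hF : F ⊆ Y) (hQ : Q ⊆ Y) (hd : Disjoint F Q)
    (hcc : F.card + t = c)
    (hp : ∀ s, ∀ T ⊆ Q, T.card = t → ∃ y ∈ Q, y ∉ T ∧ St D Y s X' (insert y (F ∪ T)))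
    {J₀ : Finset α} (hJ₀ : J₀ ⊆ Q) (hJc : J₀.card = t + 1) (hJ : ∀ s, St D Y s X' (F ∪ J₀))
    (hch : ∀ J ⊆ Q, J.card = t + 1 → (∀ s, St D Y s X' (F ∪ J)) → Ch D Y (c + 1) X' (F ∪ J))
    (hinv : ∀ f ∈ F, ∃ s, ∀ J ⊆ Q, J.card = t + 2 → ¬ St D Y s X' ((F.erase f) ∪ J))
    (hcard : gN t N ≤ Q.card) :
    ∃ F' Q' t', Q'.card = N ∧ Flex D B Y X' F' Q' t' (c + 1) := by
  have hX'Y : Disjoint X' Y := Finset.disjoint_of_subset_left hX' h.disj
  obtain ⟨F₀, hF₀, Q', hQ', t', hd', hQc, hFc, h1, h2⟩ := Pav.pair (N := N)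
    (fun s => h.pav hd hQ (hp s) hX'Y) hJ₀ hJc (fun s hn => hn (hJ s)) hcard
  have hdF : Disjoint F F₀ := Finset.disjoint_of_subset_right hF₀ hd
  have hcardT : ∀ T ⊆ Q', (F₀ ∪ T).card = F₀.card + T.card := fun T hT =>
    Finset.card_union_of_disjoint (Finset.disjoint_of_subset_right hT hd')
  refine ⟨F ∪ F₀, Q', t', hQc, hX', Finset.union_subset hF (hF₀.trans hQ), hQ'.trans hQ, ?_, hXc,
    ?_, ?_, ?_⟩
  · rw [Finset.disjoint_union_left]
    exact ⟨Finset.disjoint_of_subset_right hQ' hd, hd'⟩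
  · rw [Finset.card_union_of_disjoint hdF]; omega
  · intro T hT hTc
    rw [Finset.union_assoc]
    refine hch _ (Finset.union_subset hF₀ (hT.trans hQ')) (by rw [hcardT T hT]; omega) fun s => ?_
    exact not_not.mp (h1 T hT hTc s)
  · intro f hf
    by_cases hfF : f ∈ F
    · obtain ⟨s, hs⟩ := hinv f hfF
      have hfF₀ : f ∉ F₀ := fun h' => Finset.disjoint_left.mp hdF hfF h'
      refine ⟨s, fun T hT hTc => ?_⟩
      have e1 : ((F ∪ F₀).erase f) ∪ T = (F.erase f) ∪ (F₀ ∪ T) := by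
        rw [Finset.erase_union_distrib, Finset.erase_eq_of_notMem hfF₀, Finset.union_assoc]
      rw [e1]
      exact hs _ (Finset.union_subset hF₀ (hT.trans hQ')) (by rw [hcardT T hT]; omega)
    · have hfF₀ : f ∈ F₀ := (Finset.mem_union.mp hf).resolve_left hfF
      obtain ⟨s, hs⟩ := h2 f hfF₀
      refine ⟨s, fun T hT hTc => ?_⟩
      have e1 : ((F ∪ F₀).erase f) ∪ T = F ∪ ((F₀.erase f) ∪ T) := by
        rw [Finset.erase_union_distrib, Finset.erase_eq_of_notMem hfF, Finset.union_assoc]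
      rw [e1]
      exact hs T hT hTc

/-- extension by one element -/
theorem extend (h : MSys D B Y) {X F Q : Finset α} {t c N : ℕ} (hf : Flex D B Y X F Q t c)
    {x : α} (hx : x ∈ B) (hxX : x ∉ X) {J₀ : Finset α} (hJ₀ : J₀ ⊆ Q) (hJc : J₀.card = t + 1)
    (hJ : ∀ s, St D Y s (insert x X) (F ∪ J₀)) (hcard : gN t N ≤ Q.card) :
    ∃ F' Q' t', Q'.card = N ∧ Flex D B Y (insert x X) F' Q' t' (c + 1) := by
  have hQF : ∀ q ∈ Q, q ∉ F := fun q hq hq' => Finset.disjoint_left.mp hf.hd hq' hq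
  refine h.proc (Finset.insert_subset hx hf.hX)
    (by rw [Finset.card_insert_of_notMem hxX, hf.hXc]) hf.hF hf.hQ hf.hd hf.hc ?_ hJ₀ hJc hJ
    ?_ ?_ hcard
  · intro s T hT hTc
    obtain ⟨y, hy, hyT, -, -, h1⟩ := h.aug hx hxX hf.hX (h.ch_st (hf.ch T hT hTc) s) (hJ s)
    exact ⟨y, hJ₀ hy, hyT, h1⟩
  · intro J hJQ hJc' hJst
    obtain ⟨u, hu⟩ : J.Nonempty := by rw [← Finset.card_pos]; omega
    have huF := hQF u (hJQ hu)
    refine ⟨hJst, x, Finset.mem_insert_self _ _, u, Finset.mem_union_right _ hu, ?_⟩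
    rw [Finset.erase_insert hxX, Finset.erase_union_distrib, Finset.erase_eq_of_notMem huF]
    refine hf.ch _ ((Finset.erase_subset _ _).trans hJQ) ?_
    rw [Finset.card_erase_of_mem hu, hJc']; omega
  · intro f hfF
    obtain ⟨s, hs⟩ := hf.inv f hfF
    refine ⟨s, fun J hJQ hJc' hst => ?_⟩
    have hfQ : f ∉ Q := fun h' => Finset.disjoint_left.mp hf.hd hfF h'
    obtain ⟨T, hTJ, hTc⟩ := Finset.exists_subset_card_eq (show t ≤ J.card by omega)
    have hTst := h.ch_st (hf.ch T (hTJ.trans hJQ) hTc) s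
    have hxY := h.notMem_Y hx
    obtain ⟨e, he, he', -, h3⟩ := base_exch hTst hst (z := x)
      (Finset.mem_union_left _ (Finset.mem_insert_self _ _))
      (by rw [Finset.mem_union, Finset.mem_sdiff]; tauto)
    simp only [Finset.mem_union, Finset.mem_sdiff, Finset.mem_insert, Finset.mem_erase, not_or,
      not_and, not_not] at he he'
    have heX := he'.1.2
    have he2 := he.resolve_left heX
    have heJ : e ∈ J := he'.2 he2.1 fun _ => he2.2.1
    apply hs (J.erase e) ((Finset.erase_subset _ _).trans hJQ)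
      (by rw [Finset.card_erase_of_mem heJ, hJc']; omega)
    unfold St
    convert h3 using 2
    ext u
    simp only [Finset.mem_union, Finset.mem_sdiff, Finset.mem_insert, Finset.mem_erase, not_or,
      not_and]
    constructor
    · rintro (h5 | ⟨h5, h6, h7⟩)
      · exact Or.inr ⟨fun h' => hxX (h' ▸ h5), Or.inl (Or.inr h5)⟩
      · by_cases h8 : u = e
        · exact Or.inl h8
        · exact Or.inr ⟨fun h' => hxY (h' ▸ h5), Or.inr ⟨h5, h6, h7 h8⟩⟩
    · rintro (rfl | ⟨h5, (h6 | h6) | ⟨h6, h7, h8⟩⟩)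
      · exact Or.inr ⟨he2.1, fun _ h' => he2.2.1 h', fun h' => absurd rfl h'⟩
      · exact absurd h6 h5
      · exact Or.inl h6
      · exact Or.inr ⟨h6, h7, fun _ => h8⟩

end MSys

end Pool.Agent.Gabow87
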